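import Pool.Agent.Helper74.Thue.Tail

/-!
Choosing the colours of a row (greedily) and of a band of rows so that almost every
labelling leaves some row of the band without low labels.
-/

set_option autoImplicit false

namespace Pool.Agent.Helper74.Thue

open Finset

variable {α : Type} [Fintype α] [DecidableEq α] [Nonempty α]

theorem row_aux (Ys : Finset (Lab α)) (k : ℕ) (l : ℕ → Finset α)
    (hcard : ∀ a, a < k → (l a).card = 160 * k)
    (hbal : ∀ Y ∈ Ys, ∀ a, a < k → 21 * k ≤ ((l a).filter (fun γ => 36 ≤ (Y γ).val)).card)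
    (j : ℕ) (hj : j ≤ k) :
    ∃ c : ℕ → α, (∀ a, a < j → c a ∈ l a) ∧ (∀ a, a < j → ∀ a', a' < j → c a = c a' → a = a') ∧
      Ys.card ≤ 8 ^ j * (Ys.filter (fun Y => ∀ a, a < j → 36 ≤ (Y (c a)).val)).card := by
  classical
  induction j with
  | zero =>
    refine ⟨fun _ => Classical.arbitrary α, by simp, by simp, ?_⟩
    simp
  | succ j ih =>
    obtain ⟨c, hc1, hc2, hc3⟩ := ih (by omega)
    set N := Ys.filter (fun Y => ∀ a, a < j → 36 ≤ (Y (c a)).val) with hN
    set prev := (Finset.range j).image c with hprev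
    have hprevc : prev.card ≤ j := by
      refine Finset.card_image_le.trans ?_
      simp
    set R := l j \ prev with hR
    have hRc : R.card ≤ 160 * k := by
      refine (Finset.card_le_card Finset.sdiff_subset).trans ?_
      rw [hcard j (by omega)]
    have hRpos : R.Nonempty := by
      rw [← Finset.card_pos]
      have h1 := Finset.le_card_sdiff prev (l j)
      rw [hcard j (by omega)] at h1
      rw [hR]
      omega
    have hY : ∀ Y ∈ N, 20 * k ≤ (R.filter (fun γ => 36 ≤ (Y γ).val)).card := by
      intro Y hYN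
      have h1 := hbal Y (Finset.mem_filter.1 hYN).1 j (by omega)
      have h2 : ((l j).filter (fun γ => 36 ≤ (Y γ).val)) \ prev ⊆ R.filter (fun γ => 36 ≤ (Y γ).val) := by
        intro γ hγ
        rw [Finset.mem_sdiff, Finset.mem_filter] at hγ
        rw [hR, Finset.mem_filter, Finset.mem_sdiff]
        tauto
      have h3 := Finset.card_le_card h2
      have h4 := Finset.le_card_sdiff prev ((l j).filter (fun γ => 36 ≤ (Y γ).val))
      omega
    have hsum : 20 * k * N.card ≤ ∑ γ ∈ R, (N.filter (fun Y => 36 ≤ (Y γ).val)).card := by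
      have e : ∑ γ ∈ R, (N.filter (fun Y => 36 ≤ (Y γ).val)).card
          = ∑ Y ∈ N, (R.filter (fun γ => 36 ≤ (Y γ).val)).card := by
        simp_rw [Finset.card_filter]
        rw [Finset.sum_comm]
      rw [e]
      calc 20 * k * N.card = ∑ Y ∈ N, 20 * k := by rw [Finset.sum_const, smul_eq_mul]; ring
        _ ≤ _ := Finset.sum_le_sum hY
    obtain ⟨γ, hγR, hγ⟩ : ∃ γ ∈ R, N.card ≤ 8 * (N.filter (fun Y => 36 ≤ (Y γ).val)).card := by
      by_contra hcon
      push Not at hcon
      have h1 : ∑ γ ∈ R, 8 * (N.filter (fun Y => 36 ≤ (Y γ).val)).card < ∑ γ ∈ R, N.card :=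
        Finset.sum_lt_sum_of_nonempty hRpos hcon
      rw [← Finset.mul_sum, Finset.sum_const, smul_eq_mul] at h1
      have h2 : R.card * N.card ≤ 160 * k * N.card := Nat.mul_le_mul_right _ hRc
      have h3 : 8 * (20 * k * N.card) ≤ 8 * ∑ γ ∈ R, (N.filter (fun Y => 36 ≤ (Y γ).val)).card :=
        Nat.mul_le_mul_left _ hsum
      have h4 : 8 * (20 * k * N.card) = 160 * k * N.card := by ring
      omega
    rw [hR, Finset.mem_sdiff] at hγR
    have hγprev : ∀ a, a < j → c a ≠ γ := by
      intro a ha hh
      apply hγR.2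
      rw [hprev, Finset.mem_image]
      exact ⟨a, Finset.mem_range.2 ha, hh⟩
    refine ⟨Function.update c j γ, ?_, ?_, ?_⟩
    · intro a ha
      rcases Nat.lt_succ_iff_lt_or_eq.1 ha with h | h
      · rw [Function.update_of_ne (by omega)]; exact hc1 a h
      · subst h; rw [Function.update_self]; exact hγR.1
    · intro a ha a' ha' he
      rcases Nat.lt_succ_iff_lt_or_eq.1 ha with h | h <;>
      rcases Nat.lt_succ_iff_lt_or_eq.1 ha' with h' | h'
      · rw [Function.update_of_ne (by omega), Function.update_of_ne (by omega)] at he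
        exact hc2 a h a' h' he
      · subst h'
        rw [Function.update_of_ne (by omega), Function.update_self] at he
        exact absurd he (hγprev a h)
      · subst h
        rw [Function.update_self, Function.update_of_ne (by omega)] at he
        exact absurd he.symm (hγprev a' h')
      · omega
    · have e : Ys.filter (fun Y => ∀ a, a < j + 1 → 36 ≤ (Y (Function.update c j γ a)).val)
          = N.filter (fun Y => 36 ≤ (Y γ).val) := by
        ext Y
        simp only [hN, Finset.mem_filter]
        constructor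
        · rintro ⟨h1, h2⟩
          refine ⟨⟨h1, fun a ha => ?_⟩, ?_⟩
          · have := h2 a (by omega)
            rwa [Function.update_of_ne (by omega)] at this
          · have := h2 j (by omega)
            rwa [Function.update_self] at this
        · rintro ⟨⟨h1, h2⟩, h3⟩
          refine ⟨h1, fun a ha => ?_⟩
          rcases Nat.lt_succ_iff_lt_or_eq.1 ha with h | h
          · rw [Function.update_of_ne (by omega)]; exact h2 a h
          · subst h; rw [Function.update_self]; exact h3
      rw [e, pow_succ]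
      calc Ys.card ≤ 8 ^ j * N.card := hc3
        _ ≤ 8 ^ j * (8 * (N.filter (fun Y => 36 ≤ (Y γ).val)).card) := Nat.mul_le_mul_left _ hγ
        _ = _ := by ring

/-- labellings which put a low label on one of the colours `c 0, …, c (k-1)` -/
def Hit (k : ℕ) (c : ℕ → α) (Y : Lab α) : Prop := ∃ a, a < k ∧ (Y (c a)).val < 36

noncomputable instance (k : ℕ) (c : ℕ → α) (Y : Lab α) : Decidable (Hit k c Y) := Classical.propDecidable _

/-- unbalanced labellings for the lists `l` -/
noncomputable def Unb (k : ℕ) (l : ℕ → Finset α) : Finset (Lab α) := by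
  classical
  exact univ.filter (fun Y => ∃ a, a < k ∧ ((l a).filter (fun γ => 36 ≤ (Y γ).val)).card < 21 * k)

omit [Nonempty α] in
theorem card_Unb (k : ℕ) (l : ℕ → Finset α) (hcard : ∀ a, a < k → (l a).card = 160 * k) :
    ((Unb k l).card : ℝ) ≤ k * (2 ^ (21 * k) * (3/4) ^ (160 * k) * 72 ^ (Fintype.card α)) := by
  classical
  have h1 : Unb k l ⊆ (Finset.range k).biUnion (fun a => (univ : Finset (Lab α)).filter
      (fun Y => ((l a).filter (fun γ => 36 ≤ (Y γ).val)).card < 21 * k)) := by
    intro Y hY
    unfold Unb at hY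
    rw [Finset.mem_filter] at hY
    obtain ⟨a, ha, h⟩ := hY.2
    rw [Finset.mem_biUnion]
    exact ⟨a, Finset.mem_range.2 ha, by rw [Finset.mem_filter]; exact ⟨Finset.mem_univ _, h⟩⟩
  have h2 : ((Unb k l).card : ℝ) ≤ ∑ a ∈ Finset.range k, (((univ : Finset (Lab α)).filter
      (fun Y => ((l a).filter (fun γ => 36 ≤ (Y γ).val)).card < 21 * k)).card : ℝ) := by
    have := (Finset.card_le_card h1).trans Finset.card_biUnion_le
    exact_mod_cast this
  refine h2.trans ?_
  have h3 : ∀ a ∈ Finset.range k, (((univ : Finset (Lab α)).filter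
      (fun Y => ((l a).filter (fun γ => 36 ≤ (Y γ).val)).card < 21 * k)).card : ℝ)
      ≤ 2 ^ (21 * k) * (3/4) ^ (160 * k) * 72 ^ (Fintype.card α) := by
    intro a ha
    exact hi_tail (l a) (21 * k) (160 * k) (hcard a (Finset.mem_range.1 ha)).ge
  refine (Finset.sum_le_sum h3).trans ?_
  rw [Finset.sum_const, Finset.card_range, nsmul_eq_mul]

/-- choosing one row -/
theorem row (Ys : Finset (Lab α)) (k : ℕ) (l : ℕ → Finset α)
    (hcard : ∀ a, a < k → (l a).card = 160 * k) :
    ∃ c : ℕ → α, (∀ a, a < k → c a ∈ l a) ∧ (∀ a, a < k → ∀ a', a' < k → c a = c a' → a = a') ∧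
      ((Ys.filter (fun Y => Hit k c Y)).card : ℝ)
        ≤ (1 - (1/8:ℝ)^k) * Ys.card + (1/8:ℝ)^k * (Unb k l).card := by
  classical
  obtain ⟨c, hc1, hc2, hc3⟩ := row_aux (Ys.filter (fun Y => Y ∉ Unb k l)) k l hcard (by
    intro Y hY a ha
    rw [Finset.mem_filter] at hY
    by_contra hcon
    apply hY.2
    unfold Unb
    rw [Finset.mem_filter]
    exact ⟨Finset.mem_univ _, a, ha, by omega⟩) k le_rfl
  refine ⟨c, hc1, hc2, ?_⟩
  set Z := Ys.filter (fun Y => Y ∉ Unb k l) with hZ
  have e1 : (Ys.card : ℝ) ≤ Z.card + (Unb k l).card := by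
    have : Ys ⊆ Z ∪ Unb k l := by
      intro Y hY
      rw [Finset.mem_union, hZ, Finset.mem_filter]
      tauto
    have := (Finset.card_le_card this).trans (Finset.card_union_le _ _)
    exact_mod_cast this
  have e2 : ((Ys.filter (fun Y => Hit k c Y)).card : ℝ)
      + (Z.filter (fun Y => ∀ a, a < k → 36 ≤ (Y (c a)).val)).card ≤ Ys.card := by
    have hd : Disjoint (Ys.filter (fun Y => Hit k c Y))
        (Z.filter (fun Y => ∀ a, a < k → 36 ≤ (Y (c a)).val)) := by
      rw [Finset.disjoint_left]
      intro Y h1 h2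
      rw [Finset.mem_filter] at h1 h2
      obtain ⟨a, ha, h⟩ := h1.2
      have := h2.2 a ha
      omega
    have hs : (Ys.filter (fun Y => Hit k c Y)) ∪
        (Z.filter (fun Y => ∀ a, a < k → 36 ≤ (Y (c a)).val)) ⊆ Ys := by
      apply Finset.union_subset (Finset.filter_subset _ _)
      exact (Finset.filter_subset _ _).trans (Finset.filter_subset _ _)
    have := Finset.card_le_card hs
    rw [Finset.card_union_of_disjoint hd] at this
    exact_mod_cast this
  have e3 : (Z.card : ℝ) ≤ 8 ^ k * (Z.filter (fun Y => ∀ a, a < k → 36 ≤ (Y (c a)).val)).card := by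
    exact_mod_cast hc3
  have e4 : (1/8:ℝ)^k * Z.card ≤ (Z.filter (fun Y => ∀ a, a < k → 36 ≤ (Y (c a)).val)).card := by
    have h8 : (1/8:ℝ)^k * 8^k = 1 := by rw [← mul_pow]; norm_num
    calc (1/8:ℝ)^k * Z.card ≤ (1/8:ℝ)^k * (8 ^ k * (Z.filter (fun Y => ∀ a, a < k → 36 ≤ (Y (c a)).val)).card) :=
          mul_le_mul_of_nonneg_left e3 (by positivity)
      _ = _ := by rw [← mul_assoc, h8, one_mul]
  have e5 : (1/8:ℝ)^k * Ys.card ≤ (1/8:ℝ)^k * (Z.card + (Unb k l).card) :=
    mul_le_mul_of_nonneg_left e1 (by positivity)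
  linarith

/-- choosing a band of `b` rows -/
theorem band (k : ℕ) (l : ℕ → ℕ → Finset α) (E : ℝ) (hE : 0 ≤ E)
    (b : ℕ) (hcard : ∀ y, y < b → ∀ a, a < k → (l y a).card = 160 * k)
    (hU : ∀ y, y < b → ((Unb k (l y)).card : ℝ) ≤ E) :
    ∃ c : ℕ → ℕ → α, (∀ y, y < b → ∀ a, a < k → c y a ∈ l y a) ∧
      (∀ y, y < b → ∀ a, a < k → ∀ a', a' < k → c y a = c y a' → a = a') ∧
      (((univ : Finset (Lab α)).filter (fun Y => ∀ y, y < b → Hit k (c y) Y)).card : ℝ)
        ≤ (1 - (1/8:ℝ)^k)^b * 72 ^ (Fintype.card α) + E := by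
  classical
  induction b with
  | zero =>
    refine ⟨fun _ _ => Classical.arbitrary α, by simp, by simp, ?_⟩
    simp
    exact hE
  | succ b ih =>
    obtain ⟨c, hc1, hc2, hc3⟩ := ih (fun y hy => hcard y (by omega)) (fun y hy => hU y (by omega))
    obtain ⟨d, hd1, hd2, hd3⟩ := row ((univ : Finset (Lab α)).filter (fun Y => ∀ y, y < b → Hit k (c y) Y))
      k (l b) (hcard b (by omega))
    refine ⟨Function.update c b d, ?_, ?_, ?_⟩
    · intro y hy a ha
      rcases Nat.lt_succ_iff_lt_or_eq.1 hy with h | h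
      · rw [Function.update_of_ne (by omega)]; exact hc1 y h a ha
      · subst h; rw [Function.update_self]; exact hd1 a ha
    · intro y hy
      rcases Nat.lt_succ_iff_lt_or_eq.1 hy with h | h
      · rw [Function.update_of_ne (by omega)]; exact hc2 y h
      · subst h; rw [Function.update_self]; exact hd2
    · have e : ((univ : Finset (Lab α)).filter (fun Y => ∀ y, y < b + 1 → Hit k (Function.update c b d y) Y))
          = ((univ : Finset (Lab α)).filter (fun Y => ∀ y, y < b → Hit k (c y) Y)).filter
            (fun Y => Hit k d Y) := by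
        ext Y
        simp only [Finset.mem_filter, Finset.mem_univ, true_and]
        constructor
        · intro h
          refine ⟨fun y hy => ?_, ?_⟩
          · have := h y (by omega)
            rwa [Function.update_of_ne (by omega)] at this
          · have := h b (by omega)
            rwa [Function.update_self] at this
        · rintro ⟨h1, h2⟩ y hy
          rcases Nat.lt_succ_iff_lt_or_eq.1 hy with h | h
          · rw [Function.update_of_ne (by omega)]; exact h1 y h
          · subst h; rw [Function.update_self]; exact h2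
      rw [e]
      refine hd3.trans ?_
      have hp : (0:ℝ) ≤ 1 - (1/8:ℝ)^k := by
        have : (1/8:ℝ)^k ≤ 1 := pow_le_one₀ (by norm_num) (by norm_num)
        linarith
      have hp2 : (0:ℝ) ≤ (1/8:ℝ)^k := by positivity
      calc (1 - (1/8:ℝ)^k) * (((univ : Finset (Lab α)).filter (fun Y => ∀ y, y < b → Hit k (c y) Y)).card : ℝ)
          + (1/8:ℝ)^k * (Unb k (l b)).card
          ≤ (1 - (1/8:ℝ)^k) * ((1 - (1/8:ℝ)^k)^b * 72 ^ (Fintype.card α) + E) + (1/8:ℝ)^k * E := by
            have := hU b (by omega)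
            gcongr
        _ = _ := by ring

end Pool.Agent.Helper74.Thue
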