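import Pool.Agent.Helper74.Thue.Induct

/-!
Colours in the naturals, compactness, and the final theorem.
-/

set_option autoImplicit false

namespace Pool.Agent.Helper74.Thue

open Finset

/-- a path of the blown-up infinite path with `2 n` vertices -/
def IsPath (k n : ℕ) (v : ℕ → ℕ × Fin k) : Prop :=
  (∀ i j, i < 2 * n → j < 2 * n → v i = v j → i = j) ∧
  (∀ i, i + 1 < 2 * n →
    ((v i).1 + 1 = (v (i + 1)).1 ∨ (v (i + 1)).1 + 1 = (v i).1 ∨
      ((v i).1 = (v (i + 1)).1 ∧ (v i).2 ≠ (v (i + 1)).2)))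

theorem finite_nat (k : ℕ) (hk : 0 < k) (L : ℕ × Fin k → Finset ℕ)
    (hL : ∀ v, 115200 * k ≤ (L v).card) (N : ℕ) :
    ∃ f : ℕ × Fin k → ℕ, (∀ v, f v ∈ L v) ∧
      ∀ (v : ℕ → ℕ × Fin k) (n : ℕ), 0 < n → IsPath k n v → (∀ s, s < 2 * n → (v s).1 < N + 1) →
      ¬ (∀ i, i < n → f (v i) = f (v (i + n))) := by
  classical
  set U : Finset ℕ := (Finset.range (N + 1) ×ˢ (Finset.univ : Finset (Fin k))).biUnion L with hU
  set m := U.sup id + 1 with hm
  have hUm : ∀ v : ℕ × Fin k, v.1 < N + 1 → ∀ γ ∈ L v, γ < m := by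
    intro v hv γ hγ
    have : γ ∈ U := by
      rw [hU, Finset.mem_biUnion]
      refine ⟨v, ?_, hγ⟩
      rw [Finset.mem_product, Finset.mem_range]
      exact ⟨hv, Finset.mem_univ _⟩
    have h2 : id γ ≤ U.sup id := Finset.le_sup this
    simp only [id] at h2
    omega
  have hcardL : ∀ v : ℕ × Fin k, v.1 < N + 1 →
      ((Finset.univ : Finset (Fin m)).filter (fun γ : Fin m => (γ : ℕ) ∈ L v)).card = (L v).card := by
    intro v hv
    rw [← Finset.card_map Fin.valEmbedding]
    congr 1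
    ext γ
    rw [Finset.mem_map]
    constructor
    · rintro ⟨δ, h1, h2⟩
      rw [Finset.mem_filter] at h1
      rw [← h2]
      exact h1.2
    · intro h1
      refine ⟨⟨γ, hUm v hv γ h1⟩, ?_, rfl⟩
      rw [Finset.mem_filter]
      exact ⟨Finset.mem_univ _, h1⟩
  have hmc : 115200 * k ≤ m := by
    have h1 := hL (0, ⟨0, hk⟩)
    have h2 := hcardL (0, ⟨0, hk⟩) (by simp)
    have h3 := Finset.card_filter_le (Finset.univ : Finset (Fin m)) (fun γ : Fin m => (γ : ℕ) ∈ L (0, ⟨0, hk⟩))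
    rw [h2, Finset.card_univ, Fintype.card_fin] at h3
    omega
  have : Nonempty (Fin m) := ⟨⟨0, by omega⟩⟩
  obtain ⟨c, hc1, hc2⟩ := finite_thm (α := Fin m) k hk
    (fun i a => if h : i < N + 1 ∧ a < k then
      (Finset.univ : Finset (Fin m)).filter (fun γ : Fin m => (γ : ℕ) ∈ L (i, ⟨a, h.2⟩)) else Finset.univ)
    (by
      intro i a ha
      split_ifs with h
      · rw [hcardL (i, ⟨a, h.2⟩) h.1]
        exact hL _
      · rw [Finset.card_univ, Fintype.card_fin]
        exact hmc) (N + 1)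
  have hne : ∀ v, (L v).Nonempty := by
    intro v
    rw [← Finset.card_pos]
    have := hL v
    have h2 : 0 < 115200 * k := by omega
    omega
  refine ⟨fun v => if v.1 < N + 1 then (c v.1 v.2.val : ℕ) else (hne v).choose, ?_, ?_⟩
  · intro v
    simp only
    split_ifs with h
    · have := hc1 v.1 h v.2.val v.2.isLt
      rw [dif_pos ⟨h, v.2.isLt⟩, Finset.mem_filter] at this
      exact this.2
    · exact (hne v).choose_spec
  · intro v n hn hv hb heq
    refine hc2 (fun s => ((v s).1, (v s).2.val)) n hn (fun s _ => (v s).2.isLt) hb ?_ ?_ ?_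
    · intro s s' hs hs' he
      apply hv.1 s s' hs hs'
      rw [Prod.mk.injEq] at he
      exact Prod.ext he.1 (Fin.ext he.2)
    · intro s hs
      rcases hv.2 s hs with h | h | h
      · constructor <;> simp only <;> omega
      · constructor <;> simp only <;> omega
      · constructor <;> simp only <;> omega
    · intro s hs
      have h1 := heq s hs
      simp only [if_pos (hb s (by omega)), if_pos (hb (s + n) (by omega))] at h1
      exact Fin.ext h1

theorem infinite_thm (k : ℕ) (hk : 0 < k) (L : ℕ × Fin k → Finset ℕ)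
    (hL : ∀ v, 115200 * k ≤ (L v).card) :
    ∃ f : ℕ × Fin k → ℕ, (∀ v, f v ∈ L v) ∧
      ∀ (v : ℕ → ℕ × Fin k) (n : ℕ), 0 < n → IsPath k n v →
      ¬ (∀ i, i < n → f (v i) = f (v (i + n))) := by
  classical
  let ι := {q : (ℕ → ℕ × Fin k) × ℕ // 0 < q.2 ∧ IsPath k q.2 q.1}
  let X := (v : ℕ × Fin k) → {γ : ℕ // γ ∈ L v}
  let C : ι → Set X := fun q => {f | ¬ ∀ i, i < q.1.2 → (f (q.1.1 i)).val = (f (q.1.1 (i + q.1.2))).val}
  have hcl : ∀ q, IsClosed (C q) := by
    intro q
    rw [← isOpen_compl_iff]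
    have e : (C q)ᶜ = ⋂ i ∈ Finset.range q.1.2,
        {f : X | (f (q.1.1 i)).val = (f (q.1.1 (i + q.1.2))).val} := by
      ext f
      simp only [C, Set.mem_compl_iff, Set.mem_ofPred_eq, not_not, Set.mem_iInter, Finset.mem_range]
    rw [e]
    apply isOpen_biInter_finset
    intro i _
    have h1 : Continuous (fun f : X => (f (q.1.1 i)).val) := continuous_subtype_val.comp (continuous_apply _)
    have h2 : Continuous (fun f : X => (f (q.1.1 (i + q.1.2))).val) :=
      continuous_subtype_val.comp (continuous_apply _)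
    exact (isOpen_discrete {p : ℕ × ℕ | p.1 = p.2}).preimage (h1.prodMk h2)
  have hfin : ∀ s : Finset ι, (⋂ q ∈ s, C q).Nonempty := by
    intro s
    obtain ⟨N, hN⟩ : ∃ N, ∀ q ∈ s, ∀ i, i < 2 * q.1.2 → (q.1.1 i).1 < N + 1 := by
      refine ⟨s.sup (fun q => (Finset.range (2 * q.1.2)).sup (fun i => (q.1.1 i).1)), ?_⟩
      intro q hq i hi
      have h1 : (q.1.1 i).1 ≤ (Finset.range (2 * q.1.2)).sup (fun i => (q.1.1 i).1) :=
        Finset.le_sup (f := fun i => (q.1.1 i).1) (Finset.mem_range.2 hi)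
      have h2 := Finset.le_sup (f := fun q : ι => (Finset.range (2 * q.1.2)).sup (fun i => (q.1.1 i).1)) hq
      exact Nat.lt_succ_of_le (h1.trans h2)
    obtain ⟨f, hf1, hf2⟩ := finite_nat k hk L hL N
    refine ⟨fun v => ⟨f v, hf1 v⟩, ?_⟩
    simp only [Set.mem_iInter]
    intro q hq
    exact hf2 q.1.1 q.1.2 q.2.1 q.2.2 (hN q hq)
  have : CompactSpace X := by infer_instance
  obtain ⟨f, hf⟩ := CompactSpace.iInter_nonempty hcl hfin
  refine ⟨fun v => (f v).val, fun v => (f v).2, ?_⟩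
  intro v n hn hv
  rw [Set.mem_iInter] at hf
  exact hf ⟨(v, n), hn, hv⟩

end Pool.Agent.Helper74.Thue
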