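import Pool.Agent.Helper74.Thue.Step

/-!
The induction step and the finite theorem.
-/

set_option autoImplicit false

namespace Pool.Agent.Helper74.Thue

open Finset

variable {α : Type} [Fintype α] [DecidableEq α] [Nonempty α]

theorem step (k n : ℕ) (hk : 0 < k) (L : ℕ → ℕ → Finset α) (c : ℕ → ℕ → α)
    (W : ℕ → Finset α) (typ : ℕ → α → ℕ) (hL : ∀ i a, a < k → 115200 * k ≤ (L i a).card)
    (h : Inv k (bb k) n L c W typ) :
    ∃ (c' : ℕ → ℕ → α) (W' : ℕ → Finset α) (typ' : ℕ → α → ℕ), Inv k (bb k) (n + 1) L c' W' typ' := by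
  classical
  obtain ⟨Y, hY1, hY2, hY3⟩ := exists_label k n hk L c W typ hL h
  have hb := bb_pos k
  have hw0 : 0 < 2 * bb k * k := by positivity
  have hk' : (0:ℝ) < k := by exact_mod_cast hk
  -- lists of the new block
  have hl : ∀ i a, ∃ l : Finset α, n * (2 * bb k * k) ≤ i → i < (n + 1) * (2 * bb k * k) → a < k →
      l ⊆ ((L i a \ W n).filter (fun γ => (Y γ).val = T i)) ∧ l.card = 160 * k := by
    intro i a
    by_cases hc : n * (2 * bb k * k) ≤ i ∧ i < (n + 1) * (2 * bb k * k) ∧ a < k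
    · obtain ⟨l, hl1, hl2⟩ := Finset.exists_subset_card_eq (hY1 i hc.1 hc.2.1 a hc.2.2)
      exact ⟨l, fun _ _ _ => ⟨hl1, hl2⟩⟩
    · exact ⟨∅, fun h1 h2 h3 => absurd ⟨h1, h2, h3⟩ hc⟩
  choose l hl using hl
  -- bands of the new block
  have hband : ∀ g, ∃ d : ℕ → ℕ → α, 2 * k * n ≤ g → g < 2 * k * (n + 1) →
      (∀ r, r < bb k → ∀ a, a < k → d r a ∈ l (g * bb k + r) a) ∧
      (∀ r, r < bb k → ∀ a, a < k → ∀ a', a' < k → d r a = d r a' → a = a') ∧
      (((univ : Finset (Lab α)).filter (fun Y => ∀ r, r < bb k → Hit k (d r) Y)).card : ℝ)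
        ≤ 1 / (800 * (k:ℝ)^2) * 72 ^ (Fintype.card α) := by
    intro g
    by_cases hg : 2 * k * n ≤ g ∧ g < 2 * k * (n + 1)
    · have hrows : ∀ r, r < bb k → n * (2 * bb k * k) ≤ g * bb k + r ∧
          g * bb k + r < (n + 1) * (2 * bb k * k) := by
        intro r hr
        constructor
        · have : (2 * k * n) * bb k ≤ g * bb k := Nat.mul_le_mul_right _ hg.1
          have e : (2 * k * n) * bb k = n * (2 * bb k * k) := by ring
          omega
        · have : (g + 1) * bb k ≤ (2 * k * (n + 1)) * bb k := Nat.mul_le_mul_right _ hg.2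
          have e : (2 * k * (n + 1)) * bb k = (n + 1) * (2 * bb k * k) := by ring
          have e2 : (g + 1) * bb k = g * bb k + bb k := by ring
          omega
      have hcard : ∀ r, r < bb k → ∀ a, a < k → (l (g * bb k + r) a).card = 160 * k :=
        fun r hr a ha => (hl _ a (hrows r hr).1 (hrows r hr).2 ha).2
      obtain ⟨d, hd1, hd2, hd3⟩ := band k (fun r => l (g * bb k + r))
        (k * (2 ^ (21 * k) * (3/4) ^ (160 * k) * 72 ^ (Fintype.card α))) (by positivity) (bb k) hcard
        (fun r hr => card_Unb k _ (hcard r hr))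
      refine ⟨d, fun _ _ => ⟨hd1, hd2, hd3.trans ?_⟩⟩
      have h1 := N1 k hk
      calc (1 - (1/8:ℝ)^k)^(bb k) * 72 ^ (Fintype.card α)
          + (k * (2 ^ (21 * k) * (3/4) ^ (160 * k) * 72 ^ (Fintype.card α)))
          = ((1 - (1/8:ℝ)^k)^(bb k) + k * (2 ^ (21 * k) * (3/4) ^ (160 * k))) * 72 ^ (Fintype.card α) := by
            ring
        _ ≤ _ := by gcongr
    · exact ⟨fun _ _ => Classical.arbitrary α, fun h1 h2 => absurd ⟨h1, h2⟩ hg⟩
  choose cc hcc using hband
  -- the new colouring
  set c' : ℕ → ℕ → α := fun i a => if i < n * (2 * bb k * k) then c i a else cc (i / bb k) (i % bb k) a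
    with hc'
  set W' : ℕ → Finset α := Function.update W (n + 1) (pal (W n) Y) with hW'
  set typ' : ℕ → α → ℕ := fun m => if m = n then (fun γ => (Y γ).val) else typ m with htyp'
  have hold : ∀ i, i < n * (2 * bb k * k) → c' i = c i := by
    intro i hi
    funext a
    simp only [hc', if_pos hi]
  have hnew : ∀ g r, 2 * k * n ≤ g → r < bb k → c' (g * bb k + r) = cc g r := by
    intro g r hg hr
    funext a
    have h1 : ¬ (g * bb k + r < n * (2 * bb k * k)) := by
      have : (2 * k * n) * bb k ≤ g * bb k := Nat.mul_le_mul_right _ hg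
      have e : (2 * k * n) * bb k = n * (2 * bb k * k) := by ring
      omega
    have h2 : (g * bb k + r) / bb k = g := by
      rw [Nat.add_comm, Nat.add_mul_div_right _ _ hb, Nat.div_eq_of_lt hr, Nat.zero_add]
    have h3 : (g * bb k + r) % bb k = r := by
      rw [Nat.add_comm, Nat.add_mul_mod_self_right, Nat.mod_eq_of_lt hr]
    simp only [hc', if_neg h1, h2, h3]
  have hdecomp : ∀ i, n * (2 * bb k * k) ≤ i → i < (n + 1) * (2 * bb k * k) →
      2 * k * n ≤ i / bb k ∧ i / bb k < 2 * k * (n + 1) ∧ i % bb k < bb k ∧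
        i / bb k * bb k + i % bb k = i := by
    intro i h1 h2
    refine ⟨?_, ?_, Nat.mod_lt _ hb, Nat.div_add_mod' _ _⟩
    · rw [Nat.le_div_iff_mul_le hb]
      have e : (2 * k * n) * bb k = n * (2 * bb k * k) := by ring
      omega
    · rw [Nat.div_lt_iff_lt_mul hb]
      have e : (2 * k * (n + 1)) * bb k = (n + 1) * (2 * bb k * k) := by ring
      omega
  have hnewi : ∀ i, n * (2 * bb k * k) ≤ i → i < (n + 1) * (2 * bb k * k) → ∀ a, a < k →
      c' i a ∈ l i a := by
    intro i h1 h2 a ha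
    obtain ⟨d1, d2, d3, d4⟩ := hdecomp i h1 h2
    have h3 := (hcc (i / bb k) d1 d2).1 (i % bb k) d3 a ha
    have h4 := hnew (i / bb k) (i % bb k) d1 d3
    rw [d4] at h3 h4
    rw [h4]; exact h3
  have hlmem : ∀ i, n * (2 * bb k * k) ≤ i → i < (n + 1) * (2 * bb k * k) → ∀ a, a < k →
      c' i a ∈ L i a ∧ c' i a ∉ W n ∧ (Y (c' i a)).val = T i := by
    intro i h1 h2 a ha
    have h3 := (hl i a h1 h2 ha).1 (hnewi i h1 h2 a ha)
    rw [Finset.mem_filter, Finset.mem_sdiff] at h3
    exact ⟨h3.1.1, h3.1.2, h3.2⟩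
  have hdivn : ∀ i, n * (2 * bb k * k) ≤ i → i < (n + 1) * (2 * bb k * k) → i / (2 * bb k * k) = n := by
    intro i h1 h2
    rw [Nat.div_eq_iff hw0]
    have e : (n + 1) * (2 * bb k * k) = n * (2 * bb k * k) + 2 * bb k * k := by ring
    omega
  have hWold : ∀ m, m ≤ n → W' m = W m := by
    intro m hm
    rw [hW', Function.update_of_ne (by omega)]
  have hWnew : W' (n + 1) = pal (W n) Y := by rw [hW', Function.update_self]
  have hBFold : ∀ m, m < n → ∀ G, BF k (bb k) c' W' m G ↔ BF k (bb k) c W m G := by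
    intro m hm G
    have hmw : m * (2 * bb k * k) ≤ n * (2 * bb k * k) := Nat.mul_le_mul_right _ hm.le
    unfold BF
    rw [hWold (m + 1) (by omega)]
    constructor
    · rintro ⟨g, h1, h2, h3⟩
      refine ⟨g, h1, h2, fun y hy1 hy2 => ?_⟩
      have := h3 y hy1 hy2
      rwa [hold y (by omega)] at this
    · rintro ⟨g, h1, h2, h3⟩
      refine ⟨g, h1, h2, fun y hy1 hy2 => ?_⟩
      rw [hold y (by omega)]
      exact h3 y hy1 hy2
  have hBFnew : ∀ G, BF k (bb k) c' W' n G ↔ BY k (bb k) n c (pal (W n) Y) G := by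
    intro G
    unfold BF BY
    rw [hWnew]
    constructor
    · rintro ⟨g, h1, h2, h3⟩
      refine ⟨g, h1, h2, fun y hy1 hy2 => ?_⟩
      have := h3 y hy1 hy2
      rwa [hold y (by omega)] at this
    · rintro ⟨g, h1, h2, h3⟩
      refine ⟨g, h1, h2, fun y hy1 hy2 => ?_⟩
      rw [hold y (by omega)]
      exact h3 y hy1 hy2
  have hPsinew : Psi k (BF k (bb k) c' W') (n + 1) = newPsi k (bb k) n c W (pal (W n) Y) := by
    unfold Psi newPsi
    apply Finset.sum_congr rfl
    intro G _
    congr 1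
    rw [Phi]
    simp_rw [Phi_congr k _ _ n hBFold]
    by_cases hG : BY k (bb k) n c (pal (W n) Y) G
    · rw [if_pos hG, if_pos ((hBFnew G).2 hG)]
    · rw [if_neg hG, if_neg (fun hh => hG ((hBFnew G).1 hh))]
  refine ⟨c', W', typ', ⟨⟨?_, ?_, ?_, ?_⟩, ?_, ?_, ?_, ?_⟩⟩
  · -- mem
    intro i hi a ha
    by_cases hin : i < n * (2 * bb k * k)
    · have h1 : i / (2 * bb k * k) < n := by rwa [Nat.div_lt_iff_lt_mul hw0]
      rw [hWold _ (by omega), hold i hin]
      exact h.col.mem i hin a ha
    · have h1 := hdivn i (by omega) hi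
      obtain ⟨h2, h3, h4⟩ := hlmem i (by omega) hi a ha
      rw [h1, hWnew]
      unfold pal
      rw [Finset.mem_filter]
      refine ⟨Finset.mem_univ _, ?_, h3⟩
      rw [h4]; exact T_lt i
  · -- ty
    intro i hi a ha
    by_cases hin : i < n * (2 * bb k * k)
    · have h1 : i / (2 * bb k * k) < n := by rwa [Nat.div_lt_iff_lt_mul hw0]
      simp only [htyp', if_neg (show ¬ (i / (2 * bb k * k) = n) by omega)]
      rw [hold i hin]
      exact h.col.ty i hin a ha
    · have h1 := hdivn i (by omega) hi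
      obtain ⟨h2, h3, h4⟩ := hlmem i (by omega) hi a ha
      simp only [htyp', h1, if_true]
      exact h4
  · -- inj
    intro i hi
    by_cases hin : i < n * (2 * bb k * k)
    · rw [hold i hin]
      exact h.col.inj i hin
    · obtain ⟨d1, d2, d3, d4⟩ := hdecomp i (by omega) hi
      have h3 := (hcc (i / bb k) d1 d2).2.1 (i % bb k) d3
      have h4 := hnew (i / bb k) (i % bb k) d1 d3
      rw [d4] at h4
      rw [h4]; exact h3
  · -- disj
    intro m hm
    rcases Nat.lt_succ_iff_lt_or_eq.1 hm with h1 | h1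
    · rw [hWold m h1.le, hWold (m + 1) (by omega)]
      exact h.col.disj m h1
    · subst h1
      rw [hWold m le_rfl, hWnew, Finset.disjoint_left]
      intro γ hγ1 hγ2
      unfold pal at hγ2
      rw [Finset.mem_filter] at hγ2
      exact hγ2.2.2 hγ1
  · -- inL
    intro i hi a ha
    by_cases hin : i < n * (2 * bb k * k)
    · rw [hold i hin]
      exact h.inL i hin a ha
    · exact (hlmem i (by omega) hi a ha).1
  · -- band
    intro g hg
    by_cases hg2 : (g + 1) * bb k ≤ n * (2 * bb k * k)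
    · have e : BadLab k (bb k) c' g = BadLab k (bb k) c g := by
        unfold BadLab
        apply Finset.filter_congr
        intro Z _
        constructor
        · intro h1 y hy1 hy2
          have := h1 y hy1 hy2
          rwa [hold y (by omega)] at this
        · intro h1 y hy1 hy2
          rw [hold y (by omega)]
          exact h1 y hy1 hy2
      rw [e]
      exact h.band g hg2
    · have hg3 : 2 * k * n ≤ g := by
        by_contra hcon
        apply hg2
        have : (g + 1) * bb k ≤ (2 * k * n) * bb k := Nat.mul_le_mul_right _ (by omega)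
        calc (g + 1) * bb k ≤ (2 * k * n) * bb k := this
          _ = _ := by ring
      have hg4 : g < 2 * k * (n + 1) := by
        have : (g + 1) * bb k ≤ (2 * k * (n + 1)) * bb k := by
          calc (g + 1) * bb k ≤ (n + 1) * (2 * bb k * k) := hg
            _ = _ := by ring
        exact Nat.le_of_mul_le_mul_right this hb
      refine le_trans ?_ (hcc g hg3 hg4).2.2
      have : BadLab k (bb k) c' g ⊆ (univ : Finset (Lab α)).filter
          (fun Z => ∀ r, r < bb k → Hit k (cc g r) Z) := by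
        intro Z hZ
        unfold BadLab at hZ
        rw [Finset.mem_filter] at hZ
        rw [Finset.mem_filter]
        refine ⟨Finset.mem_univ _, fun r hr => ?_⟩
        have := hZ.2 (g * bb k + r) (by omega) (by
          have e : (g + 1) * bb k = g * bb k + bb k := by ring
          omega)
        rwa [hnew g r hg3 hr] at this
      exact_mod_cast Finset.card_le_card this
  · -- psi
    intro m hm
    rcases Nat.lt_succ_iff_lt_or_eq.1 (Nat.lt_succ_of_le hm) with h1 | h1
    · rw [Psi_congr k _ (BF k (bb k) c W) m (fun m' hm' G => hBFold m' (by omega) G)]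
      exact h.psi m (by omega)
    · subst h1
      rw [hPsinew]
      exact hY3
  · -- big
    intro i hi1 hi2 a ha
    rw [hWnew]
    refine (hY2 i hi1 hi2 a ha).trans ?_
    apply Finset.card_le_card
    intro γ hγ
    rw [Finset.mem_filter] at hγ
    rw [Finset.mem_sdiff]
    refine ⟨hγ.1, ?_⟩
    intro hh
    unfold pal at hh
    rw [Finset.mem_filter] at hh
    omega

theorem all_inv (k : ℕ) (hk : 0 < k) (L : ℕ → ℕ → Finset α)
    (hL : ∀ i a, a < k → 115200 * k ≤ (L i a).card) (n : ℕ) :
    ∃ (c : ℕ → ℕ → α) (W : ℕ → Finset α) (typ : ℕ → α → ℕ), Inv k (bb k) n L c W typ := by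
  induction n with
  | zero =>
    refine ⟨fun _ _ => Classical.arbitrary α, fun _ => ∅, fun _ _ => 0, ⟨⟨?_, ?_, ?_, ?_⟩, ?_, ?_, ?_, ?_⟩⟩
    · intro i hi; simp at hi
    · intro i hi; simp at hi
    · intro i hi; simp at hi
    · intro m hm; omega
    · intro i hi; simp at hi
    · intro g hg
      have := bb_pos k
      have h1 : 0 < (g + 1) * bb k := by positivity
      omega
    · intro m hm
      have : m = 0 := by omega
      subst this
      unfold Psi
      simp [Phi]
    · intro i _ _ a ha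
      rw [Finset.sdiff_empty]
      exact le_trans (by omega) (hL i a ha)
  | succ n ih =>
    obtain ⟨c, W, typ, h⟩ := ih
    exact step k n hk L c W typ hL h

/-- finite theorem, colours in a finite type -/
theorem finite_thm (k : ℕ) (hk : 0 < k) (L : ℕ → ℕ → Finset α)
    (hL : ∀ i a, a < k → 115200 * k ≤ (L i a).card) (N : ℕ) :
    ∃ c : ℕ → ℕ → α, (∀ i, i < N → ∀ a, a < k → c i a ∈ L i a) ∧
      ∀ (v : ℕ → ℕ × ℕ) (t : ℕ), 0 < t → (∀ s, s < 2 * t → (v s).2 < k) →
      (∀ s, s < 2 * t → (v s).1 < N) →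
      (∀ s s', s < 2 * t → s' < 2 * t → v s = v s' → s = s') →
      (∀ s, s + 1 < 2 * t → (v (s+1)).1 ≤ (v s).1 + 1 ∧ (v s).1 ≤ (v (s+1)).1 + 1) →
      ¬ (∀ s, s < t → c (v s).1 (v s).2 = c (v (s+t)).1 (v (s+t)).2) := by
  obtain ⟨c, W, typ, h⟩ := all_inv k hk L hL N
  have hb := bb_pos k
  have hw : N ≤ N * (2 * bb k * k) := Nat.le_mul_of_pos_right _ (by positivity)
  refine ⟨c, fun i hi a ha => h.inL i (by omega) a ha, ?_⟩
  intro v t ht v2 vbd vinj vstep heq
  exact h.col.no_rep hk hb (nine_dvd_bb k) h.psi v t ht v2 (fun s hs => by have := vbd s hs; omega)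
    vinj vstep heq

end Pool.Agent.Helper74.Thue
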