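import Mathlib

/-!
Numerical estimates.
-/

set_option autoImplicit false

namespace Pool.Agent.Helper74.Thue

/-- length of a band -/
def bb (k : ℕ) : ℕ := 9 * 8 ^ k * (k + 1)

theorem bb_pos (k : ℕ) : 0 < bb k := by unfold bb; positivity

theorem nine_dvd_bb (k : ℕ) : 9 ∣ bb k := ⟨8 ^ k * (k + 1), by unfold bb; ring⟩

theorem exp_neg_le_half (n : ℕ) : Real.exp (-(n:ℝ)) ≤ (1/2) ^ n := by
  have h1 : (2:ℝ) ≤ Real.exp 1 := by
    have := Real.add_one_le_exp (1:ℝ)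
    linarith
  have h2 : Real.exp (-(n:ℝ)) = (Real.exp 1)⁻¹ ^ n := by
    rw [← Real.exp_neg, ← Real.exp_nat_mul]; ring_nf
  rw [h2]
  apply pow_le_pow_left₀ (by positivity)
  rw [inv_le_comm₀ (by positivity) (by norm_num)]
  norm_num
  exact h1

theorem pow_one_sub_le (x : ℝ) (hx : x ≤ 1) (m n : ℕ) (h : (m:ℝ) * x = n) :
    (1 - x) ^ m ≤ (1/2) ^ n := by
  have h1 : (1 - x) ^ m ≤ (Real.exp (-x)) ^ m :=
    pow_le_pow_left₀ (by linarith) (Real.one_sub_le_exp_neg x) m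
  have h2 : (Real.exp (-x)) ^ m = Real.exp (-(n:ℝ)) := by
    rw [← Real.exp_nat_mul, ← h]; ring_nf
  rw [h2] at h1
  exact h1.trans (exp_neg_le_half n)

theorem three_quarters : (3/4:ℝ) ^ 5 ≤ (1/2) ^ 2 := by norm_num

theorem three_quarters_pow (m : ℕ) : (3/4:ℝ) ^ (5 * m) ≤ (1/2) ^ (2 * m) := by
  rw [pow_mul, pow_mul]
  exact pow_le_pow_left₀ (by positivity) three_quarters m

theorem pow_half_split (m n : ℕ) (h : m ≤ n) : (2:ℝ) ^ m * (1/2) ^ n = (1/2) ^ (n - m) := by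
  obtain ⟨d, rfl⟩ := Nat.exists_eq_add_of_le h
  rw [Nat.add_sub_cancel_left, pow_add, ← mul_assoc, ← mul_pow]
  norm_num

theorem unb_le (k : ℕ) : (2:ℝ) ^ (21 * k) * (3/4) ^ (160 * k) ≤ (1/2) ^ (43 * k) := by
  have h1 : (3/4:ℝ) ^ (160 * k) ≤ (1/2) ^ (64 * k) := by
    have := three_quarters_pow (32 * k)
    have e1 : 5 * (32 * k) = 160 * k := by ring
    have e2 : 2 * (32 * k) = 64 * k := by ring
    rwa [e1, e2] at this
  calc (2:ℝ) ^ (21 * k) * (3/4) ^ (160 * k) ≤ 2 ^ (21 * k) * (1/2) ^ (64 * k) := by gcongr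
    _ = (1/2) ^ (64 * k - 21 * k) := pow_half_split _ _ (by omega)
    _ = _ := by congr 1; omega

theorem half_pow_le {k m : ℕ} {x : ℝ} (h : x * k ≤ 2 ^ m) (n : ℕ) (hn : m ≤ n) (hk : 0 < k) (hx : 0 < x) :
    (1/2:ℝ) ^ n ≤ 1 / (x * k) := by
  have hk' : (0:ℝ) < k := by exact_mod_cast hk
  rw [le_div_iff₀ (by positivity)]
  calc (1/2:ℝ) ^ n * (x * k) ≤ (1/2:ℝ) ^ n * 2 ^ n := by
        have : (2:ℝ) ^ m ≤ 2 ^ n := pow_le_pow_right₀ (by norm_num) hn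
        gcongr
        linarith
    _ = 1 := by rw [← mul_pow]; norm_num

theorem nat_le_two_pow (k : ℕ) : (k:ℝ) ≤ 2 ^ k := by
  exact_mod_cast Nat.lt_two_pow_self.le

theorem N1 (k : ℕ) (hk : 0 < k) :
    (1 - (1/8:ℝ)^k)^(bb k) + k * (2 ^ (21 * k) * (3/4) ^ (160 * k)) ≤ 1 / (800 * (k:ℝ)^2) := by
  have hk' : (0:ℝ) < k := by exact_mod_cast hk
  have hk2 := nat_le_two_pow k
  have h1 : (1 - (1/8:ℝ)^k)^(bb k) ≤ (1/2) ^ (9 * (k + 1)) := by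
    apply pow_one_sub_le
    · exact pow_le_one₀ (by norm_num) (by norm_num)
    · unfold bb
      push_cast
      have : (8:ℝ)^k * (1/8)^k = 1 := by rw [← mul_pow]; norm_num
      calc (9 * (8:ℝ)^k * (k + 1)) * (1/8)^k = 9 * (k+1) * ((8:ℝ)^k * (1/8)^k) := by ring
        _ = _ := by rw [this]; ring
  have h2 : (1/2:ℝ) ^ (9 * (k + 1)) ≤ 1 / (1600 * (k:ℝ)^2) := by
    have h3 : (1600 * (k:ℝ)) * k ≤ 2 ^ (11 + 2 * k) := by
      rw [pow_add, two_mul, pow_add]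
      have : (1600 * (k:ℝ)) * k ≤ 2048 * (2^k * 2^k) := by nlinarith
      calc _ ≤ _ := this
        _ = _ := by norm_num
    have := half_pow_le h3 (9 * (k + 1)) (by omega) hk (by positivity)
    calc _ ≤ _ := this
      _ = _ := by ring
  have h4 : (k:ℝ) * (2 ^ (21 * k) * (3/4) ^ (160 * k)) ≤ 1 / (1600 * (k:ℝ)^2) := by
    have h5 : (1600 * (k:ℝ)^2) * k ≤ 2 ^ (11 + 3 * k) := by
      have e : (2:ℝ) ^ (11 + 3 * k) = 2048 * (2^k)^3 := by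
        rw [pow_add, mul_comm 3 k, pow_mul]; norm_num
      rw [e]
      have : (k:ℝ)^3 ≤ (2^k)^3 := pow_le_pow_left₀ hk'.le hk2 3
      nlinarith [pow_pos hk' 3]
    have h6 := half_pow_le h5 (43 * k) (by omega) hk (by positivity)
    calc (k:ℝ) * (2 ^ (21 * k) * (3/4) ^ (160 * k)) ≤ k * (1/2) ^ (43 * k) := by
          gcongr; exact unb_le k
      _ ≤ k * (1 / (1600 * (k:ℝ)^2 * k)) := by gcongr
      _ = _ := by field_simp
  have e : 1 / (800 * (k:ℝ)^2) = 1 / (1600 * (k:ℝ)^2) + 1 / (1600 * (k:ℝ)^2) := by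
    field_simp; norm_num
  rw [e]
  linarith

theorem wk_le (k : ℕ) (hk : 0 < k) : ((2 * bb k * k : ℕ) : ℝ) * k ≤ 2 ^ (5 + 6 * k) := by
  have hk' : (0:ℝ) < k := by exact_mod_cast hk
  have hk2 := nat_le_two_pow k
  have hk3 : ((k:ℝ) + 1) ≤ 2 ^ k := by
    have : k + 1 ≤ 2 ^ k := Nat.lt_two_pow_self
    exact_mod_cast this
  have e : (2:ℝ) ^ (5 + 6 * k) = 32 * (8 ^ k * 2 ^ k * 2 ^ k * 2 ^ k) := by
    rw [pow_add, pow_mul, ← mul_pow, ← mul_pow, ← mul_pow]; norm_num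
  rw [e]
  unfold bb
  push_cast
  calc (2 * (9 * (8:ℝ) ^ k * (k + 1)) * k) * k = 18 * (8 ^ k * (k+1) * k * k) := by ring
    _ ≤ 32 * (8 ^ k * 2 ^ k * 2 ^ k * 2 ^ k) := by gcongr; norm_num

theorem N_aux (k : ℕ) (hk : 0 < k) (x : ℝ) (hx : x ≤ (1/2) ^ (40 * k)) :
    ((2 * bb k * k : ℕ) : ℝ) * k * x ≤ 1/8 := by
  have h1 := wk_le k hk
  have h3 : (2:ℝ) ^ (5 + 6 * k) * (1/2) ^ (40 * k) ≤ 1/8 := by
    rw [pow_half_split _ _ (by omega)]
    calc (1/2:ℝ) ^ (40 * k - (5 + 6 * k)) ≤ (1/2) ^ 3 :=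
          pow_le_pow_of_le_one (by norm_num) (by norm_num) (by omega)
      _ = _ := by norm_num
  calc ((2 * bb k * k : ℕ) : ℝ) * k * x ≤ ((2 * bb k * k : ℕ) : ℝ) * k * (1/2) ^ (40 * k) := by gcongr
    _ ≤ 2 ^ (5 + 6 * k) * (1/2) ^ (40 * k) := by gcongr
    _ ≤ _ := h3

theorem N2 (k : ℕ) (hk : 0 < k) :
    ((2 * bb k * k : ℕ) : ℝ) * k * (2 ^ (160 * k) * (143/144) ^ (28800 * k)) ≤ 1/8 := by
  apply N_aux k hk
  have h1 : (143/144:ℝ) ^ (28800 * k) ≤ (1/2) ^ (200 * k) := by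
    have : (143/144:ℝ) = 1 - 1/144 := by norm_num
    rw [this]
    apply pow_one_sub_le _ (by norm_num)
    push_cast; ring
  calc (2:ℝ) ^ (160 * k) * (143/144) ^ (28800 * k) ≤ 2 ^ (160 * k) * (1/2) ^ (200 * k) := by gcongr
    _ = (1/2) ^ (200 * k - 160 * k) := pow_half_split _ _ (by omega)
    _ = _ := by congr 1; omega

theorem N3 (k : ℕ) (hk : 0 < k) :
    ((2 * bb k * k : ℕ) : ℝ) * k * (2 ^ (28800 * k) * (3/4) ^ (115200 * k)) ≤ 1/8 := by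
  apply N_aux k hk
  have h1 : (3/4:ℝ) ^ (115200 * k) ≤ (1/2) ^ (46080 * k) := by
    have := three_quarters_pow (23040 * k)
    have e1 : 5 * (23040 * k) = 115200 * k := by ring
    have e2 : 2 * (23040 * k) = 46080 * k := by ring
    rwa [e1, e2] at this
  calc (2:ℝ) ^ (28800 * k) * (3/4) ^ (115200 * k) ≤ 2 ^ (28800 * k) * (1/2) ^ (46080 * k) := by gcongr
    _ = (1/2) ^ (46080 * k - 28800 * k) := pow_half_split _ _ (by omega)
    _ ≤ _ := pow_le_pow_of_le_one (by norm_num) (by norm_num) (by omega)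

end Pool.Agent.Helper74.Thue
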