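import Pool.Agent.Helper74.Thue.Walk

/-!
A colouring with the block structure and small potential has no repetitive path.
-/

set_option autoImplicit false

namespace Pool.Agent.Helper74.Thue

open Finset

variable {α : Type}

/-- block structure of a colouring of the first `n` blocks -/
structure Col (k b n : ℕ) (c : ℕ → ℕ → α) (W : ℕ → Finset α) (typ : ℕ → α → ℕ) : Prop where
  mem : ∀ i, i < n * (2 * b * k) → ∀ a, a < k → c i a ∈ W (i / (2 * b * k) + 1)
  ty : ∀ i, i < n * (2 * b * k) → ∀ a, a < k → typ (i / (2 * b * k)) (c i a) = T i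
  inj : ∀ i, i < n * (2 * b * k) → ∀ a, a < k → ∀ a', a' < k → c i a = c i a' → a = a'
  disj : ∀ m, m < n → Disjoint (W m) (W (m + 1))

theorem Col.closed1 {k b n : ℕ} (hk : 0 < k) (hb : 0 < b) {c : ℕ → ℕ → α} {W : ℕ → Finset α}
    {typ : ℕ → α → ℕ} (h : Col k b n c W typ) {i j a a' : ℕ} (ha : a < k) (ha' : a' < k)
    (hij : i < j) (hj : j < n * (2 * b * k)) (he : c i a = c j a') :
    j / (2 * b * k) ≠ i / (2 * b * k) + 1 := by
  intro hcon
  have h1 := h.mem i (by omega) a ha
  have h2 := h.mem j hj a' ha'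
  rw [hcon] at h2
  have hw0 : 0 < 2 * b * k := by positivity
  have h3 : j / (2 * b * k) < n := by rwa [Nat.div_lt_iff_lt_mul hw0]
  have h4 := h.disj (i / (2 * b * k) + 1) (by omega)
  rw [he] at h1
  exact Finset.disjoint_left.1 h4 h1 h2

theorem Col.closed2 {k b n : ℕ} {c : ℕ → ℕ → α} {W : ℕ → Finset α}
    {typ : ℕ → α → ℕ} (h : Col k b n c W typ) {i j a a' : ℕ} (ha : a < k) (ha' : a' < k)
    (hi : i < n * (2 * b * k)) (hj : j < n * (2 * b * k)) (he : c i a = c j a')
    (hm : i / (2 * b * k) = j / (2 * b * k)) : T i = T j := by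
  have h1 := h.ty i hi a ha
  have h2 := h.ty j hj a' ha'
  rw [← h1, ← h2, he, hm]

theorem nine_dvd_w {k b : ℕ} (h9 : 9 ∣ b) : 9 ∣ 2 * b * k := by
  obtain ⟨b', rfl⟩ := h9
  exact ⟨2 * b' * k, by ring⟩

theorem w_ge {k b : ℕ} (hk : 0 < k) (hb : 0 < b) (h9 : 9 ∣ b) : 18 ≤ 2 * b * k := by
  have h1 : 9 ≤ b := Nat.le_of_dvd hb h9
  calc 18 = 2 * 9 * 1 := by norm_num
    _ ≤ 2 * b * k := by gcongr; omega

/-- one step in the near regime -/
theorem Col.near_step {k b n : ℕ} (hk : 0 < k) (hb : 0 < b) (h9 : 9 ∣ b) {c : ℕ → ℕ → α}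
    {W : ℕ → Finset α} {typ : ℕ → α → ℕ} (h : Col k b n c W typ) {i j i' j' : ℕ}
    {a1 a2 a3 a4 : ℕ} (ha1 : a1 < k) (ha2 : a2 < k) (ha3 : a3 < k) (ha4 : a4 < k)
    (hij : i < j) (hij' : i' < j') (hj : j < n * (2 * b * k)) (hj' : j' < n * (2 * b * k))
    (h1 : i' ≤ i + 1 ∧ i ≤ i' + 1) (h2 : j' ≤ j + 1 ∧ j ≤ j' + 1)
    (he : c i a1 = c j a2) (he' : c i' a3 = c j' a4)
    (hN : i / (2 * b * k) = j / (2 * b * k)) :
    i' / (2 * b * k) = j' / (2 * b * k) ∧ j' - i' = j - i := by
  have hT := T_mod (h.closed2 ha1 ha2 (by omega) hj he hN)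
  have hc := h.closed1 hk hb ha3 ha4 hij' hj' he'
  have h9w := nine_dvd_w (k := k) h9
  have hw0 : 0 < 2 * b * k := by positivity
  have hN' : i' / (2 * b * k) = j' / (2 * b * k) := by
    have hle : i' / (2 * b * k) ≤ j' / (2 * b * k) := Nat.div_le_div_right hij'.le
    by_contra hcon
    have hge : i' / (2 * b * k) + 2 ≤ j' / (2 * b * k) := by omega
    generalize 2 * b * k = w at *
    have e1 : (i' / w + 2) * w ≤ j' := by
      have := Nat.div_mul_le_self j' w
      exact (Nat.mul_le_mul_right w hge).trans this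
    have e2 := Nat.lt_div_mul_add (a := i') hw0
    have e3 : (i' / w + 2) * w = i' / w * w + w + w := by ring
    have e4 := Nat.lt_div_mul_add (a := j) hw0
    have e5 := Nat.div_mul_le_self i w
    rw [hN] at e5
    omega
  refine ⟨hN', ?_⟩
  have hT' := T_mod (h.closed2 ha3 ha4 (by omega) hj' he' hN')
  omega

theorem Col.pair {k b n : ℕ} (hk : 0 < k) (hb : 0 < b) (h9 : 9 ∣ b) {c : ℕ → ℕ → α}
    {W : ℕ → Finset α} {typ : ℕ → α → ℕ} (h : Col k b n c W typ)
    (x y : ℕ → ℕ × ℕ) (t : ℕ) (ht : 0 < t)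
    (x2 : ∀ s, s < t → (x s).2 < k) (y2 : ∀ s, s < t → (y s).2 < k)
    (xinj : ∀ s, s < t → ∀ s', s' < t → x s = x s' → s = s')
    (yinj : ∀ s, s < t → ∀ s', s' < t → y s = y s' → s = s')
    (xstep : ∀ s, s + 1 < t → (x (s+1)).1 ≤ (x s).1 + 1 ∧ (x s).1 ≤ (x (s+1)).1 + 1)
    (ystep : ∀ s, s + 1 < t → (y (s+1)).1 ≤ (y s).1 + 1 ∧ (y s).1 ≤ (y (s+1)).1 + 1)
    (heq : ∀ s, s < t → c (x s).1 (x s).2 = c (y s).1 (y s).2)
    (hlt : ∀ s, s < t → (x s).1 < (y s).1)
    (hbd : ∀ s, s < t → (y s).1 < n * (2 * b * k))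
    (hlink : (y 0).1 ≤ (x (t - 1)).1 + 1) :
    ∃ (p d : ℕ) (G : ℕ → ℕ), (∀ m, p ≤ m → m ≤ p + d → BF k b c W m (G m)) ∧
      (∑ m ∈ Ico p (p + d), ds (G (m+1)) (G m) ≤ 2 * (d + 1)) ∧
      ((p + d) / k ≤ G (p + d) + 2 * (d + 1) + 2) ∧ p + d + 1 ≤ n := by
  classical
  have hw0 : 0 < 2 * b * k := by positivity
  by_cases hN0 : (x 0).1 / (2 * b * k) = (y 0).1 / (2 * b * k)
  · -- near regime: a square in the word
    exfalso
    have hall : ∀ s, s < t → (x s).1 / (2 * b * k) = (y s).1 / (2 * b * k) ∧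
        (y s).1 - (x s).1 = (y 0).1 - (x 0).1 := by
      intro s
      induction s with
      | zero => intro _; exact ⟨hN0, rfl⟩
      | succ s ih =>
        intro hs
        obtain ⟨h1, h2⟩ := ih (by omega)
        obtain ⟨h3, h4⟩ := h.near_step hk hb h9 (x2 s (by omega)) (y2 s (by omega)) (x2 (s+1) hs)
          (y2 (s+1) hs) (hlt s (by omega)) (hlt (s+1) hs) (hbd s (by omega)) (hbd (s+1) hs)
          (xstep s hs) (ystep s hs) (heq s (by omega)) (heq (s+1) hs) h1
        exact ⟨h3, by omega⟩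
    have h0 := hlt 0 ht
    refine no_square (x 0).1 ((y 0).1 - (x 0).1) (by omega) ?_
    intro X hX1 hX2
    obtain ⟨s, hs1, hs2, hs3⟩ := ivt (fun s => (x s).1) 0 (t - 1) (by omega)
      (fun s _ h2 => xstep s (by omega)) X (Or.inl ⟨hX1, by
        have : X ≤ (x (t - 1)).1 := by omega
        exact this⟩)
    have hs3' : (x s).1 = X := hs3
    obtain ⟨h1, h2⟩ := hall s (by omega)
    have h3 := hlt s (by omega)
    have h4 := h.closed2 (x2 s (by omega)) (y2 s (by omega)) (by have := hbd s (by omega); omega)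
      (hbd s (by omega)) (heq s (by omega)) h1
    have e1 : (y s).1 = X + ((y 0).1 - (x 0).1) := by omega
    rw [hs3', e1] at h4
    exact h4
  · have hall : ∀ s, s < t → (x s).1 / (2 * b * k) ≠ (y s).1 / (2 * b * k) := by
      intro s
      induction s with
      | zero => intro _; exact hN0
      | succ s ih =>
        intro hs hcon
        apply ih (by omega)
        have hx := xstep s hs
        have hy := ystep s hs
        exact (h.near_step hk hb h9 (x2 (s+1) hs) (y2 (s+1) hs) (x2 s (by omega)) (y2 s (by omega))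
          (hlt (s+1) hs) (hlt s (by omega)) (hbd (s+1) hs) (hbd s (by omega))
          ⟨hx.2, hx.1⟩ ⟨hy.2, hy.1⟩ (heq (s+1) hs) (heq s (by omega)) hcon).1
    have hRB : RB k b c W x y t := by
      refine ⟨x2, y2, xinj, yinj, xstep, ystep, ?_, ?_⟩
      · intro s hs
        rw [heq s hs]
        exact h.mem _ (hbd s hs) _ (y2 s hs)
      · intro s hs
        have h1 := hall s hs
        have h2 := h.closed1 hk hb (x2 s hs) (y2 s hs) (hlt s hs) (hbd s hs) (heq s hs)
        have h3 : (x s).1 / (2 * b * k) ≤ (y s).1 / (2 * b * k) := Nat.div_le_div_right (hlt s hs).le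
        omega
    have hne : (Finset.range t).Nonempty := ⟨0, Finset.mem_range.2 ht⟩
    obtain ⟨sA, hsA, hmin⟩ := Finset.exists_min_image (Finset.range t) (fun s => (y s).1) hne
    obtain ⟨sB, hsB, hmax⟩ := Finset.exists_max_image (Finset.range t) (fun s => (y s).1) hne
    rw [Finset.mem_range] at hsA hsB
    have hmin' : ∀ s, s < t → (y sA).1 ≤ (y s).1 := fun s hs => hmin s (Finset.mem_range.2 hs)
    have hmax' : ∀ s, s < t → (y s).1 ≤ (y sB).1 := fun s hs => hmax s (Finset.mem_range.2 hs)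
    have hq1 : (y sA).1 ≤ ((x (t-1)).1 / (2 * b * k) + 1) * (2 * b * k) := by
      have h1 := hmin' 0 ht
      have h2 := Nat.lt_div_mul_add (a := (x (t-1)).1) hw0
      have e1 : ((x (t-1)).1 / (2 * b * k) + 1) * (2 * b * k)
          = (x (t-1)).1 / (2 * b * k) * (2 * b * k) + 2 * b * k := by ring
      omega
    have hq2 : ((x (t-1)).1 / (2 * b * k) + 1 + 1) * (2 * b * k) ≤ (y sB).1 + 1 := by
      have h1 := hRB.sep (t-1) (by omega)
      have h2 := hmax' (t-1) (by omega)
      have h3 := Nat.div_mul_le_self (y (t-1)).1 (2 * b * k)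
      have h4 := Nat.mul_le_mul_right (2 * b * k) h1
      have e1 : ((x (t-1)).1 / (2 * b * k) + 1 + 1) * (2 * b * k)
          = ((x (t-1)).1 / (2 * b * k) + 2) * (2 * b * k) := by ring
      omega
    have hL : ∀ s, s < t → (y sA).1 ≤ (x s).1 + t := by
      intro s hs
      have h1 := hmin' 0 ht
      have h2 := lip (fun s => (x s).1) s (t-1) (by omega) (fun s' _ h4 => xstep s' (by omega))
      have h3 := h2.1
      omega
    have hfin : ∀ (p d : ℕ), (p + d + 1) * (2 * b * k) ≤ (y sB).1 + 1 → p + d + 1 ≤ n := by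
      intro p d h1
      have h2 := hbd sB hsB
      exact Nat.le_of_mul_le_mul_right (h1.trans (by omega)) hw0
    rcases Nat.le_total sA sB with hAB | hAB
    · obtain ⟨p, d, G, h1, h2, h3, h4⟩ := RB.chain hk hb hRB sA sB hAB hsB hmin' hmax' _ hq1 hq2 hL
      exact ⟨p, d, G, h1, h2, h3, hfin p d h4⟩
    · have eA : t - 1 - (t - 1 - sA) = sA := by omega
      have eB : t - 1 - (t - 1 - sB) = sB := by omega
      obtain ⟨p, d, G, h1, h2, h3, h4⟩ := RB.chain hk hb hRB.rev (t - 1 - sA) (t - 1 - sB)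
        (by omega) (by omega)
        (by intro s hs; simp only [eA]; exact hmin' _ (by omega))
        (by intro s hs; simp only [eB]; exact hmax' _ (by omega))
        _ (by simp only [eA]; exact hq1) (by simp only [eB]; exact hq2)
        (by intro s hs; simp only [eA]; exact hL _ (by omega))
      simp only [eB] at h4
      exact ⟨p, d, G, h1, h2, h3, hfin p d h4⟩

theorem Col.sep3 {k b n : ℕ} (hk : 0 < k) (hb : 0 < b) (h9 : 9 ∣ b) {c : ℕ → ℕ → α}
    {W : ℕ → Finset α} {typ : ℕ → α → ℕ} (h : Col k b n c W typ) {i j a a' : ℕ} (ha : a < k)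
    (ha' : a' < k) (hij : i < j) (hj : j < n * (2 * b * k)) (he : c i a = c j a') : i + 3 ≤ j := by
  by_contra hcon
  have hc := h.closed1 hk hb ha ha' hij hj he
  have hw := w_ge hk hb h9
  have hw0 : 0 < 2 * b * k := by omega
  have h1 : i / (2 * b * k) ≤ j / (2 * b * k) := Nat.div_le_div_right hij.le
  have h2 : j / (2 * b * k) ≤ i / (2 * b * k) + 1 := by
    have : j ≤ i + 2 * b * k := by omega
    calc j / (2 * b * k) ≤ (i + 2 * b * k) / (2 * b * k) := Nat.div_le_div_right this
      _ = _ := by rw [Nat.add_div_right _ hw0]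
  have h3 := T_mod (h.closed2 ha ha' (by omega) hj he (by omega))
  omega

/-- the main lemma on paths -/
theorem Col.no_rep {k b n : ℕ} (hk : 0 < k) (hb : 0 < b) (h9 : 9 ∣ b) {c : ℕ → ℕ → α}
    {W : ℕ → Finset α} {typ : ℕ → α → ℕ} (h : Col k b n c W typ)
    (hPsi : ∀ m, m ≤ n → Psi k (BF k b c W) m ≤ 1/4)
    (v : ℕ → ℕ × ℕ) (t : ℕ) (ht : 0 < t) (v2 : ∀ s, s < 2 * t → (v s).2 < k)
    (vbd : ∀ s, s < 2 * t → (v s).1 < n * (2 * b * k))
    (vinj : ∀ s s', s < 2 * t → s' < 2 * t → v s = v s' → s = s')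
    (vstep : ∀ s, s + 1 < 2 * t → (v (s+1)).1 ≤ (v s).1 + 1 ∧ (v s).1 ≤ (v (s+1)).1 + 1)
    (heq : ∀ s, s < t → c (v s).1 (v s).2 = c (v (s+t)).1 (v (s+t)).2) : False := by
  -- reduction to chains
  have hchain : ¬ ∃ (p d : ℕ) (G : ℕ → ℕ), (∀ m, p ≤ m → m ≤ p + d → BF k b c W m (G m)) ∧
      (∑ m ∈ Ico p (p + d), ds (G (m+1)) (G m) ≤ 2 * (d + 1)) ∧
      ((p + d) / k ≤ G (p + d) + 2 * (d + 1) + 2) ∧ p + d + 1 ≤ n := by
    rintro ⟨p, d, G, h1, h2, h3, h4⟩
    have h5 := Psi_chain k hk (BF k b c W) G p d h1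
      (fun m h6 h7 => BF_le k b hk hb c W m (G m) (h1 m h6 h7)) h2 h3
    have h6 := hPsi (p + d + 1) h4
    linarith
  -- the two halves are never close
  have hfar : ∀ s, s < t → (v s).1 + 3 ≤ (v (s+t)).1 ∨ (v (s+t)).1 + 3 ≤ (v s).1 := by
    intro s hs
    rcases Nat.lt_trichotomy (v s).1 (v (s+t)).1 with h1 | h1 | h1
    · left
      exact h.sep3 hk hb h9 (v2 s (by omega)) (v2 (s+t) (by omega)) h1 (vbd _ (by omega)) (heq s hs)
    · exfalso
      have h2 := heq s hs
      rw [← h1] at h2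
      have h3 := h.inj _ (vbd s (by omega)) _ (v2 s (by omega)) _ (v2 (s+t) (by omega)) h2
      have h4 := vinj s (s+t) (by omega) (by omega) (Prod.ext h1 h3)
      omega
    · right
      exact h.sep3 hk hb h9 (v2 (s+t) (by omega)) (v2 s (by omega)) h1 (vbd _ (by omega)) (heq s hs).symm
  rcases hfar 0 ht with h0 | h0
  · have hall : ∀ s, s < t → (v s).1 + 3 ≤ (v (s+t)).1 := by
      intro s
      induction s with
      | zero => intro _; exact h0
      | succ s ih =>
        intro hs
        have h1 := ih (by omega)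
        have h2 := vstep s (by omega)
        have h3 := vstep (s + t) (by omega)
        have e : s + t + 1 = s + 1 + t := by ring
        rw [e] at h3
        rcases hfar (s+1) hs with h4 | h4 <;> omega
    apply hchain
    refine h.pair hk hb h9 (fun s => v s) (fun s => v (s + t)) t ht (fun s hs => v2 s (by omega))
      (fun s hs => v2 _ (by omega)) (fun s hs s' hs' he => vinj s s' (by omega) (by omega) he)
      (fun s hs s' hs' he => by
        have := vinj (s+t) (s'+t) (by omega) (by omega) he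
        omega) (fun s hs => vstep s (by omega)) ?_ heq (fun s hs => by have := hall s hs; omega)
      (fun s hs => vbd _ (by omega)) ?_
    · intro s hs
      have := vstep (s + t) (by omega)
      have e : s + t + 1 = s + 1 + t := by ring
      rw [e] at this
      exact this
    · have := vstep (t - 1) (by omega)
      have e : t - 1 + 1 = 0 + t := by omega
      rw [e] at this
      exact this.1
  · have hall : ∀ s, s < t → (v (s+t)).1 + 3 ≤ (v s).1 := by
      intro s
      induction s with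
      | zero => intro _; exact h0
      | succ s ih =>
        intro hs
        have h1 := ih (by omega)
        have h2 := vstep s (by omega)
        have h3 := vstep (s + t) (by omega)
        have e : s + t + 1 = s + 1 + t := by ring
        rw [e] at h3
        rcases hfar (s+1) hs with h4 | h4 <;> omega
    apply hchain
    refine h.pair hk hb h9 (fun s => v (2 * t - 1 - s)) (fun s => v (t - 1 - s)) t ht
      (fun s hs => v2 _ (by omega)) (fun s hs => v2 _ (by omega))
      (fun s hs s' hs' he => by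
        have := vinj _ _ (by omega) (by omega) he
        omega)
      (fun s hs s' hs' he => by
        have := vinj _ _ (by omega) (by omega) he
        omega) ?_ ?_ ?_ ?_ (fun s hs => vbd _ (by omega)) ?_
    · intro s hs
      have := vstep (2 * t - 1 - (s + 1)) (by omega)
      have e : 2 * t - 1 - (s + 1) + 1 = 2 * t - 1 - s := by omega
      rw [e] at this
      exact ⟨this.2, this.1⟩
    · intro s hs
      have := vstep (t - 1 - (s + 1)) (by omega)
      have e : t - 1 - (s + 1) + 1 = t - 1 - s := by omega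
      rw [e] at this
      exact ⟨this.2, this.1⟩
    · intro s hs
      have := heq (t - 1 - s) (by omega)
      have e : t - 1 - s + t = 2 * t - 1 - s := by omega
      rw [e] at this
      exact this.symm
    · intro s hs
      have := hall (t - 1 - s) (by omega)
      have e : t - 1 - s + t = 2 * t - 1 - s := by omega
      rw [e] at this
      omega
    · have := vstep (t - 1) (by omega)
      have e : t - 1 + 1 = t := by omega
      rw [e] at this
      have e2 : 2 * t - 1 - (t - 1) = t := by omega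
      have e3 : t - 1 - 0 = t - 1 := by omega
      simp only [e2, e3]
      exact this.2

end Pool.Agent.Helper74.Thue
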