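import Mathlib

/-!
The potential function.
-/

set_option autoImplicit false

namespace Pool.Agent.Helper74.Thue

open Finset

/-- distance of two naturals -/
def ds (a b : ℕ) : ℕ := (a - b) + (b - a)

open Classical in
/-- potential of the cell `G` at stage `n` -/
noncomputable def Phi (k : ℕ) (P : ℕ → ℕ → Prop) : ℕ → ℕ → ℝ
  | 0, _ => 0
  | (n+1), G => if P n G then 8 * (1 + ∑ G' ∈ range (n / k + 1), (1/2:ℝ) ^ ds G G' * Phi k P n G')
      else 0

theorem Phi_nonneg (k : ℕ) (P : ℕ → ℕ → Prop) (n : ℕ) : ∀ G, 0 ≤ Phi k P n G := by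
  induction n with
  | zero => intro G; simp [Phi]
  | succ n ih =>
    intro G
    rw [Phi]
    split_ifs
    · have : 0 ≤ ∑ G' ∈ range (n / k + 1), (1/2:ℝ) ^ ds G G' * Phi k P n G' :=
        Finset.sum_nonneg (fun G' _ => mul_nonneg (by positivity) (ih G'))
      linarith
    · exact le_rfl

theorem Phi_congr (k : ℕ) (P P' : ℕ → ℕ → Prop) (n : ℕ) (h : ∀ m, m < n → ∀ G, P m G ↔ P' m G) :
    ∀ G, Phi k P n G = Phi k P' n G := by
  induction n with
  | zero => intro G; simp [Phi]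
  | succ n ih =>
    intro G
    have ih' := ih (fun m hm => h m (by omega))
    rw [Phi, Phi]
    simp_rw [ih']
    by_cases hp : P n G
    · rw [if_pos hp, if_pos ((h n (by omega) G).1 hp)]
    · rw [if_neg hp, if_neg (fun h2 => hp ((h n (by omega) G).2 h2))]

/-- total potential at stage `n` -/
noncomputable def Psi (k : ℕ) (P : ℕ → ℕ → Prop) (n : ℕ) : ℝ :=
  ∑ G ∈ range (n / k + 1), Phi k P n G * (3/4:ℝ) ^ (n / k - G)

theorem Psi_congr (k : ℕ) (P P' : ℕ → ℕ → Prop) (n : ℕ) (h : ∀ m, m < n → ∀ G, P m G ↔ P' m G) :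
    Psi k P n = Psi k P' n := by
  unfold Psi
  simp_rw [Phi_congr k P P' n h]

theorem Phi_chain (k : ℕ) (P : ℕ → ℕ → Prop) (G : ℕ → ℕ) (p d : ℕ)
    (h : ∀ m, p ≤ m → m ≤ p + d → P m (G m)) (hG : ∀ m, p ≤ m → m ≤ p + d → G m ≤ m / k) :
    (8:ℝ) ^ (d + 1) * (1/2) ^ (∑ m ∈ Ico p (p + d), ds (G (m+1)) (G m)) ≤ Phi k P (p + d + 1) (G (p + d)) := by
  induction d with
  | zero =>
    simp only [Nat.add_zero, Ico_self, sum_empty, pow_zero, mul_one, zero_add, pow_one]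
    rw [Phi, if_pos (h p le_rfl le_rfl)]
    have : 0 ≤ ∑ G' ∈ range (p / k + 1), (1/2:ℝ) ^ ds (G p) G' * Phi k P p G' :=
      Finset.sum_nonneg (fun G' _ => mul_nonneg (by positivity) (Phi_nonneg k P p G'))
    linarith
  | succ d ih =>
    have ih' := ih (fun m h1 h2 => h m h1 (by omega)) (fun m h1 h2 => hG m h1 (by omega))
    have e : p + (d + 1) = p + d + 1 := by ring
    rw [e, Finset.sum_Ico_succ_top (by omega), Phi, if_pos (by
      have := h (p + d + 1) (by omega) (by omega)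
      exact this)]
    have h1 : (1/2:ℝ) ^ ds (G (p + d + 1)) (G (p + d)) * Phi k P (p + d + 1) (G (p + d))
        ≤ ∑ G' ∈ range ((p + d + 1) / k + 1), (1/2:ℝ) ^ ds (G (p + d + 1)) G' * Phi k P (p + d + 1) G' := by
      refine Finset.single_le_sum (f := fun G' => (1/2:ℝ) ^ ds (G (p + d + 1)) G' * Phi k P (p + d + 1) G')
        (fun G' _ => mul_nonneg (by positivity) (Phi_nonneg k P _ G')) ?_
      rw [Finset.mem_range]
      have h2 := hG (p + d) (by omega) (by omega)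
      have h3 : (p + d) / k ≤ (p + d + 1) / k := Nat.div_le_div_right (by omega)
      omega
    have h2 : (1/2:ℝ) ^ ds (G (p + d + 1)) (G (p + d)) *
        ((8:ℝ) ^ (d + 1) * (1/2) ^ (∑ m ∈ Ico p (p + d), ds (G (m+1)) (G m)))
        ≤ (1/2:ℝ) ^ ds (G (p + d + 1)) (G (p + d)) * Phi k P (p + d + 1) (G (p + d)) :=
      mul_le_mul_of_nonneg_left ih' (by positivity)
    rw [pow_add (1/2:ℝ) (∑ m ∈ Ico p (p + d), ds (G (m+1)) (G m)), pow_succ (8:ℝ) (d+1)]
    nlinarith [h1, h2]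

/-- a chain of bad cells makes the total potential large -/
theorem Psi_chain (k : ℕ) (hk : 0 < k) (P : ℕ → ℕ → Prop) (G : ℕ → ℕ) (p d : ℕ)
    (h : ∀ m, p ≤ m → m ≤ p + d → P m (G m)) (hG : ∀ m, p ≤ m → m ≤ p + d → G m ≤ m / k)
    (hsum : ∑ m ∈ Ico p (p + d), ds (G (m+1)) (G m) ≤ 2 * (d + 1))
    (hanc : (p + d) / k ≤ G (p + d) + 2 * (d + 1) + 2) :
    1/4 < Psi k P (p + d + 1) := by
  have h1 := Phi_chain k P G p d h hG
  have h2 : (p + d + 1) / k ≤ (p + d) / k + 1 := by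
    rw [Nat.succ_div]; split_ifs <;> omega
  have h3 : (1/2:ℝ) ^ (2 * (d + 1)) ≤ (1/2:ℝ) ^ (∑ m ∈ Ico p (p + d), ds (G (m+1)) (G m)) :=
    pow_le_pow_of_le_one (by norm_num) (by norm_num) hsum
  have h4 : (3/4:ℝ) ^ (2 * (d + 1) + 3) ≤ (3/4:ℝ) ^ ((p + d + 1) / k - G (p + d)) :=
    pow_le_pow_of_le_one (by norm_num) (by norm_num) (by omega)
  have h5 : Phi k P (p + d + 1) (G (p + d)) * (3/4:ℝ) ^ ((p + d + 1) / k - G (p + d))
      ≤ Psi k P (p + d + 1) := by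
    unfold Psi
    refine Finset.single_le_sum (f := fun G' => Phi k P (p + d + 1) G' * (3/4:ℝ) ^ ((p + d + 1) / k - G'))
      (fun G' _ => mul_nonneg (Phi_nonneg k P _ G') (by positivity)) ?_
    rw [Finset.mem_range]
    have h6 := hG (p + d) (by omega) (by omega)
    have h7 : (p + d) / k ≤ (p + d + 1) / k := Nat.div_le_div_right (by omega)
    omega
  have h6 : (8:ℝ) ^ (d + 1) * (1/2) ^ (2 * (d + 1)) * (3/4:ℝ) ^ (2 * (d + 1) + 3)
      ≤ Phi k P (p + d + 1) (G (p + d)) * (3/4:ℝ) ^ ((p + d + 1) / k - G (p + d)) := by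
    apply mul_le_mul _ h4 (by positivity) (Phi_nonneg _ _ _ _)
    refine le_trans ?_ h1
    exact mul_le_mul_of_nonneg_left h3 (by positivity)
  have h7 : (8:ℝ) ^ (d + 1) * (1/2) ^ (2 * (d + 1)) * (3/4:ℝ) ^ (2 * (d + 1) + 3)
      = (27/64) * (9/8) ^ (d+1) := by
    have e1 : (1/2:ℝ) ^ (2 * (d + 1)) = (1/4)^(d+1) := by rw [pow_mul]; norm_num
    have e2 : (3/4:ℝ) ^ (2 * (d + 1) + 3) = (9/16)^(d+1) * (27/64) := by
      rw [pow_add, pow_mul]; norm_num
    rw [e1, e2]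
    have e3 : (8:ℝ)^(d+1) * (1/4)^(d+1) * ((9/16)^(d+1) * (27/64)) = (27/64) * (8 * (1/4) * (9/16))^(d+1) := by
      rw [mul_pow, mul_pow]; ring
    rw [e3]; norm_num
  have h8 : (1:ℝ) ≤ (9/8) ^ (d+1) := one_le_pow₀ (by norm_num)
  linarith

theorem geo_sum (x : ℝ) (hx0 : 0 ≤ x) (hx : x < 1) (N : ℕ) :
    ∑ i ∈ range N, x ^ i ≤ 1 / (1 - x) := by
  have h := geom_sum_mul_neg x N
  have h1 : 0 < 1 - x := by linarith
  rw [le_div_iff₀ h1, h]
  have : 0 ≤ x ^ N := by positivity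
  linarith

theorem sum_rev (a : ℕ) : ∑ G ∈ range (a + 1), (3/4:ℝ) ^ (a - G) ≤ 4 := by
  have h := Finset.sum_range_reflect (fun i => (3/4:ℝ)^i) (a+1)
  have e : ∀ G ∈ range (a+1), (3/4:ℝ) ^ (a - G) = (3/4:ℝ) ^ (a + 1 - 1 - G) := by
    intro G _; congr 1
  rw [Finset.sum_congr rfl e, h]
  refine (geo_sum (3/4) (by norm_num) (by norm_num) _).trans (by norm_num)

theorem sum_two_sided (N G' : ℕ) : ∑ G ∈ range N, (2/3:ℝ) ^ ds G G' ≤ 6 := by
  have h1 : ∑ G ∈ range N, (2/3:ℝ) ^ ds G G' ≤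
      ∑ G ∈ range (N + G' + 1), (2/3:ℝ) ^ ds G G' :=
    Finset.sum_le_sum_of_subset_of_nonneg (Finset.range_subset_range.2 (by omega)) (fun _ _ _ => by positivity)
  refine h1.trans ?_
  have h2 : ∑ G ∈ range (N + G' + 1), (2/3:ℝ) ^ ds G G'
      = ∑ G ∈ range (G' + 1), (2/3:ℝ) ^ ds G G' + ∑ i ∈ range N, (2/3:ℝ) ^ ds (G' + 1 + i) G' := by
    have e : N + G' + 1 = (G' + 1) + N := by ring
    rw [e, Finset.sum_range_add]
  rw [h2]
  have h3 : ∑ G ∈ range (G' + 1), (2/3:ℝ) ^ ds G G' ≤ 3 := by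
    have e : ∀ G ∈ range (G'+1), (2/3:ℝ) ^ ds G G' = (2/3:ℝ) ^ (G' + 1 - 1 - G) := by
      intro G hG
      rw [Finset.mem_range] at hG
      congr 1
      unfold ds; omega
    rw [Finset.sum_congr rfl e, Finset.sum_range_reflect (fun i => (2/3:ℝ)^i) (G'+1)]
    refine (geo_sum (2/3) (by norm_num) (by norm_num) _).trans (by norm_num)
  have h4 : ∑ i ∈ range N, (2/3:ℝ) ^ ds (G' + 1 + i) G' ≤ 3 := by
    have e : ∀ i ∈ range N, (2/3:ℝ) ^ ds (G' + 1 + i) G' ≤ (2/3:ℝ) ^ i := by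
      intro i _
      apply pow_le_pow_of_le_one (by norm_num) (by norm_num)
      unfold ds; omega
    refine (Finset.sum_le_sum e).trans ?_
    refine (geo_sum (2/3) (by norm_num) (by norm_num) _).trans (by norm_num)
  linarith

/-- one step of the potential, before taking the event into account -/
theorem step_bound (k : ℕ) (P : ℕ → ℕ → Prop) (n : ℕ) :
    ∑ G ∈ range ((n + 1) / k + 1), (3/4:ℝ) ^ ((n + 1) / k - G) *
      (8 * (1 + ∑ G' ∈ range (n / k + 1), (1/2:ℝ) ^ ds G G' * Phi k P n G'))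
      ≤ 8 * (4 + 6 * Psi k P n) := by
  have h0 : n / k ≤ (n + 1) / k := Nat.div_le_div_right (by omega)
  generalize hA : (n + 1) / k = A at *
  generalize hB : n / k = B at *
  have e1 : ∑ G ∈ range (A + 1), (3/4:ℝ) ^ (A - G) *
      (8 * (1 + ∑ G' ∈ range (B + 1), (1/2:ℝ) ^ ds G G' * Phi k P n G'))
      = 8 * (∑ G ∈ range (A + 1), (3/4:ℝ) ^ (A - G)
        + ∑ G' ∈ range (B + 1), Phi k P n G' * ∑ G ∈ range (A + 1), (3/4:ℝ) ^ (A - G) * (1/2:ℝ) ^ ds G G') := by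
    have e2 : ∑ G' ∈ range (B + 1), Phi k P n G' * ∑ G ∈ range (A + 1), (3/4:ℝ) ^ (A - G) * (1/2:ℝ) ^ ds G G'
        = ∑ G ∈ range (A + 1), ∑ G' ∈ range (B + 1), (3/4:ℝ) ^ (A - G) * ((1/2:ℝ) ^ ds G G' * Phi k P n G') := by
      rw [Finset.sum_comm]
      apply Finset.sum_congr rfl
      intro G' _
      rw [Finset.mul_sum]
      apply Finset.sum_congr rfl
      intro G _
      ring
    rw [e2, ← Finset.sum_add_distrib, Finset.mul_sum]
    apply Finset.sum_congr rfl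
    intro G _
    rw [← Finset.mul_sum]
    ring
  rw [e1]
  have h1 := sum_rev A
  have h2 : ∑ G' ∈ range (B + 1), Phi k P n G' * ∑ G ∈ range (A + 1), (3/4:ℝ) ^ (A - G) * (1/2:ℝ) ^ ds G G'
      ≤ 6 * Psi k P n := by
    unfold Psi
    rw [hB, Finset.mul_sum]
    apply Finset.sum_le_sum
    intro G' hG'
    rw [Finset.mem_range] at hG'
    have h3 : ∑ G ∈ range (A + 1), (3/4:ℝ) ^ (A - G) * (1/2:ℝ) ^ ds G G' ≤ 6 * (3/4:ℝ) ^ (B - G') := by
      have h4 : ∀ G ∈ range (A + 1), (3/4:ℝ) ^ (A - G) * (1/2:ℝ) ^ ds G G'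
          ≤ (3/4:ℝ) ^ (B - G') * (2/3:ℝ) ^ ds G G' := by
        intro G _
        have h5 : (1/2:ℝ) ^ ds G G' = (3/4:ℝ)^ ds G G' * (2/3:ℝ) ^ ds G G' := by
          rw [← mul_pow]; norm_num
        rw [h5, ← mul_assoc, ← pow_add]
        apply mul_le_mul_of_nonneg_right _ (by positivity)
        apply pow_le_pow_of_le_one (by norm_num) (by norm_num)
        unfold ds; omega
      refine (Finset.sum_le_sum h4).trans ?_
      rw [← Finset.mul_sum, mul_comm (6:ℝ)]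
      exact mul_le_mul_of_nonneg_left (sum_two_sided _ _) (by positivity)
    calc Phi k P n G' * ∑ G ∈ range (A + 1), (3/4:ℝ) ^ (A - G) * (1/2:ℝ) ^ ds G G'
        ≤ Phi k P n G' * (6 * (3/4:ℝ) ^ (B - G')) := mul_le_mul_of_nonneg_left h3 (Phi_nonneg _ _ _ _)
      _ = _ := by ring
  linarith

end Pool.Agent.Helper74.Thue
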