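import Pool.Agent.Helper74.Thue.Band
import Pool.Agent.Helper74.Thue.Path
import Pool.Agent.Helper74.Thue.Numbers

/-!
The inductive construction of the colouring, block by block.
-/

set_option autoImplicit false

namespace Pool.Agent.Helper74.Thue

open Finset

variable {α : Type} [Fintype α] [DecidableEq α]

/-- labellings for which every row of the band `g` has a colour with a low label -/
noncomputable def BadLab (k b : ℕ) (c : ℕ → ℕ → α) (g : ℕ) : Finset (Lab α) := by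
  classical
  exact univ.filter (fun Y => ∀ y, g * b ≤ y → y < (g + 1) * b → Hit k (c y) Y)

/-- invariant -/
structure Inv (k b n : ℕ) (L : ℕ → ℕ → Finset α) (c : ℕ → ℕ → α) (W : ℕ → Finset α)
    (typ : ℕ → α → ℕ) : Prop where
  col : Col k b n c W typ
  inL : ∀ i, i < n * (2 * b * k) → ∀ a, a < k → c i a ∈ L i a
  band : ∀ g, (g + 1) * b ≤ n * (2 * b * k) →
    ((BadLab k b c g).card : ℝ) ≤ 1 / (800 * (k:ℝ)^2) * 72 ^ (Fintype.card α)
  psi : ∀ m, m ≤ n → Psi k (BF k b c W) m ≤ 1/4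
  big : ∀ i, n * (2 * b * k) ≤ i → i < (n + 1) * (2 * b * k) → ∀ a, a < k →
    28800 * k ≤ (L i a \ W n).card

/-- new palette -/
def pal (W : Finset α) (Y : Lab α) : Finset α :=
  univ.filter (fun γ => (Y γ).val < 36 ∧ γ ∉ W)

/-- the cell `G` is bad for the palette given by the labelling `Y` -/
def BY (k b n : ℕ) (c : ℕ → ℕ → α) (V : Finset α) (G : ℕ) : Prop :=
  ∃ g, g / (2 * k ^ 2) = G ∧ (g + 1) * b ≤ n * (2 * b * k) ∧
    ∀ y, g * b ≤ y → y < (g + 1) * b → ∃ a, a < k ∧ c y a ∈ V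

theorem card_BY (k b n : ℕ) (hk : 0 < k) (c : ℕ → ℕ → α) (Wn : Finset α)
    (hband : ∀ g, (g + 1) * b ≤ n * (2 * b * k) →
      ((BadLab k b c g).card : ℝ) ≤ 1 / (800 * (k:ℝ)^2) * 72 ^ (Fintype.card α)) (G : ℕ) :
    ∃ S : Finset (Lab α), (∀ Y, BY k b n c (pal Wn Y) G → Y ∈ S) ∧
      (S.card : ℝ) ≤ 1/400 * 72 ^ (Fintype.card α) := by
  classical
  refine ⟨((Finset.Ico (2 * k ^ 2 * G) (2 * k ^ 2 * (G + 1))).filter
    (fun g => (g + 1) * b ≤ n * (2 * b * k))).biUnion (fun g => BadLab k b c g), ?_, ?_⟩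
  · rintro Y ⟨g, h1, h2, h3⟩
    rw [Finset.mem_biUnion]
    refine ⟨g, ?_, ?_⟩
    · rw [Finset.mem_filter, Finset.mem_Ico]
      have hk2 : 0 < 2 * k ^ 2 := by positivity
      refine ⟨⟨?_, ?_⟩, h2⟩
      · rw [← h1]; exact Nat.mul_div_le _ _
      · rw [← h1]; exact Nat.lt_mul_div_succ _ hk2
    · unfold BadLab
      rw [Finset.mem_filter]
      refine ⟨Finset.mem_univ _, fun y hy1 hy2 => ?_⟩
      obtain ⟨a, ha1, ha2⟩ := h3 y hy1 hy2
      unfold pal at ha2
      rw [Finset.mem_filter] at ha2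
      exact ⟨a, ha1, ha2.2.1⟩
  · have h1 : ((((Finset.Ico (2 * k ^ 2 * G) (2 * k ^ 2 * (G + 1))).filter
        (fun g => (g + 1) * b ≤ n * (2 * b * k))).biUnion (fun g => BadLab k b c g)).card : ℝ)
        ≤ ∑ g ∈ (Finset.Ico (2 * k ^ 2 * G) (2 * k ^ 2 * (G + 1))).filter
        (fun g => (g + 1) * b ≤ n * (2 * b * k)), ((BadLab k b c g).card : ℝ) := by
      exact_mod_cast Finset.card_biUnion_le
    refine h1.trans ?_
    have h2 : ∀ g ∈ (Finset.Ico (2 * k ^ 2 * G) (2 * k ^ 2 * (G + 1))).filter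
        (fun g => (g + 1) * b ≤ n * (2 * b * k)), ((BadLab k b c g).card : ℝ)
        ≤ 1 / (800 * (k:ℝ)^2) * 72 ^ (Fintype.card α) := by
      intro g hg
      exact hband g (Finset.mem_filter.1 hg).2
    refine (Finset.sum_le_sum h2).trans ?_
    rw [Finset.sum_const, nsmul_eq_mul]
    have h3 : ((((Finset.Ico (2 * k ^ 2 * G) (2 * k ^ 2 * (G + 1))).filter
        (fun g => (g + 1) * b ≤ n * (2 * b * k))).card : ℕ) : ℝ) ≤ 2 * (k:ℝ)^2 := by
      have h4 := Finset.card_filter_le (Finset.Ico (2 * k ^ 2 * G) (2 * k ^ 2 * (G + 1)))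
        (fun g => (g + 1) * b ≤ n * (2 * b * k))
      rw [Nat.card_Ico] at h4
      have h5 : 2 * k ^ 2 * (G + 1) - 2 * k ^ 2 * G = 2 * k ^ 2 := by
        rw [Nat.mul_add, Nat.add_sub_cancel_left, Nat.mul_one]
      rw [h5] at h4
      exact_mod_cast h4
    have hk' : (0:ℝ) < k := by exact_mod_cast hk
    calc _ ≤ 2 * (k:ℝ)^2 * (1 / (800 * (k:ℝ)^2) * 72 ^ (Fintype.card α)) := by gcongr
      _ = _ := by field_simp; norm_num

open Classical in
/-- the new total potential -/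
noncomputable def newPsi (k b n : ℕ) (c : ℕ → ℕ → α) (W : ℕ → Finset α) (V : Finset α) : ℝ :=
  ∑ G ∈ range ((n + 1) / k + 1), (if BY k b n c V G then
    8 * (1 + ∑ G' ∈ range (n / k + 1), (1/2:ℝ) ^ ds G G' * Phi k (BF k b c W) n G') else 0)
      * (3/4:ℝ) ^ ((n + 1) / k - G)

theorem sum_newPsi (k b n : ℕ) (hk : 0 < k) (c : ℕ → ℕ → α) (W : ℕ → Finset α)
    (hband : ∀ g, (g + 1) * b ≤ n * (2 * b * k) →
      ((BadLab k b c g).card : ℝ) ≤ 1 / (800 * (k:ℝ)^2) * 72 ^ (Fintype.card α))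
    (hpsi : Psi k (BF k b c W) n ≤ 1/4) :
    ∑ Y : Lab α, newPsi k b n c W (pal (W n) Y) ≤ 11/100 * 72 ^ (Fintype.card α) := by
  classical
  unfold newPsi
  rw [Finset.sum_comm]
  set A : ℕ → ℝ := fun G => 8 * (1 + ∑ G' ∈ range (n / k + 1), (1/2:ℝ) ^ ds G G' * Phi k (BF k b c W) n G')
    with hA
  have hA0 : ∀ G, 0 ≤ A G := by
    intro G
    have : 0 ≤ ∑ G' ∈ range (n / k + 1), (1/2:ℝ) ^ ds G G' * Phi k (BF k b c W) n G' :=
      Finset.sum_nonneg (fun G' _ => mul_nonneg (by positivity) (Phi_nonneg k _ n G'))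
    simp only [hA]; linarith
  have h1 : ∀ G ∈ range ((n + 1) / k + 1),
      ∑ Y : Lab α, (if BY k b n c (pal (W n) Y) G then A G else 0) * (3/4:ℝ) ^ ((n + 1) / k - G)
        ≤ (1/400 * 72 ^ (Fintype.card α)) * ((3/4:ℝ) ^ ((n + 1) / k - G) * A G) := by
    intro G _
    obtain ⟨S, hS1, hS2⟩ := card_BY k b n hk c (W n) hband G
    have h2 : ∑ Y : Lab α, (if BY k b n c (pal (W n) Y) G then A G else 0) * (3/4:ℝ) ^ ((n + 1) / k - G)
        ≤ ∑ Y : Lab α, (if Y ∈ S then A G * (3/4:ℝ) ^ ((n + 1) / k - G) else 0) := by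
      apply Finset.sum_le_sum
      intro Y _
      by_cases h3 : BY k b n c (pal (W n) Y) G
      · rw [if_pos h3, if_pos (hS1 Y h3)]
      · rw [if_neg h3, zero_mul]
        split_ifs
        · exact mul_nonneg (hA0 G) (by positivity)
        · exact le_rfl
    refine h2.trans ?_
    rw [Finset.sum_ite_mem, Finset.univ_inter, Finset.sum_const, nsmul_eq_mul]
    have h4 : 0 ≤ A G * (3/4:ℝ) ^ ((n + 1) / k - G) := mul_nonneg (hA0 G) (by positivity)
    calc (S.card : ℝ) * (A G * (3/4:ℝ) ^ ((n + 1) / k - G))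
        ≤ (1/400 * 72 ^ (Fintype.card α)) * (A G * (3/4:ℝ) ^ ((n + 1) / k - G)) := by gcongr
      _ = _ := by ring
  refine (Finset.sum_le_sum h1).trans ?_
  rw [← Finset.mul_sum]
  have h2 := step_bound k (BF k b c W) n
  have h3 : ∑ G ∈ range ((n + 1) / k + 1), (3/4:ℝ) ^ ((n + 1) / k - G) * A G ≤ 44 := by
    refine h2.trans ?_
    linarith
  calc (1/400 * (72:ℝ) ^ (Fintype.card α)) * ∑ G ∈ range ((n + 1) / k + 1), (3/4:ℝ) ^ ((n + 1) / k - G) * A G
      ≤ (1/400 * 72 ^ (Fintype.card α)) * 44 := by gcongr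
    _ = _ := by ring

/-- choice of the labelling of the new block -/
theorem exists_label (k n : ℕ) (hk : 0 < k) (L : ℕ → ℕ → Finset α) (c : ℕ → ℕ → α)
    (W : ℕ → Finset α) (typ : ℕ → α → ℕ) (hL : ∀ i a, a < k → 115200 * k ≤ (L i a).card)
    (h : Inv k (bb k) n L c W typ) :
    ∃ Y : Lab α, (∀ i, n * (2 * bb k * k) ≤ i → i < (n + 1) * (2 * bb k * k) → ∀ a, a < k →
        160 * k ≤ ((L i a \ W n).filter (fun γ => (Y γ).val = T i)).card) ∧
      (∀ i, (n + 1) * (2 * bb k * k) ≤ i → i < (n + 2) * (2 * bb k * k) → ∀ a, a < k →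
        28800 * k ≤ ((L i a).filter (fun γ => 36 ≤ (Y γ).val)).card) ∧
      newPsi k (bb k) n c W (pal (W n) Y) ≤ 1/4 := by
  classical
  set w := 2 * bb k * k with hw
  have hM : (0:ℝ) < 72 ^ (Fintype.card α) := by positivity
  -- the three bad sets
  set B1 : Finset (Lab α) := (Finset.Ico (n * w) ((n + 1) * w) ×ˢ Finset.range k).biUnion
    (fun q => (univ : Finset (Lab α)).filter
      (fun Y => ((L q.1 q.2 \ W n).filter (fun γ => Y γ = ⟨T q.1, by have := T_lt q.1; omega⟩)).card < 160 * k))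
    with hB1
  set B2 : Finset (Lab α) := (Finset.Ico ((n + 1) * w) ((n + 2) * w) ×ˢ Finset.range k).biUnion
    (fun q => (univ : Finset (Lab α)).filter
      (fun Y => ((L q.1 q.2).filter (fun γ => 36 ≤ (Y γ).val)).card < 28800 * k)) with hB2
  set B3 : Finset (Lab α) := (univ : Finset (Lab α)).filter
    (fun Y => 1/4 < newPsi k (bb k) n c W (pal (W n) Y)) with hB3
  have c1 : (B1.card : ℝ) ≤ 1/8 * 72 ^ (Fintype.card α) := by
    have h1 : (B1.card : ℝ) ≤ ∑ q ∈ Finset.Ico (n * w) ((n + 1) * w) ×ˢ Finset.range k,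
        (((univ : Finset (Lab α)).filter
      (fun Y => ((L q.1 q.2 \ W n).filter (fun γ => Y γ = ⟨T q.1, by have := T_lt q.1; omega⟩)).card < 160 * k)).card : ℝ) := by
      exact_mod_cast Finset.card_biUnion_le
    have h2 : ∀ q ∈ Finset.Ico (n * w) ((n + 1) * w) ×ˢ Finset.range k,
        (((univ : Finset (Lab α)).filter
      (fun Y => ((L q.1 q.2 \ W n).filter (fun γ => Y γ = ⟨T q.1, by have := T_lt q.1; omega⟩)).card < 160 * k)).card : ℝ)
        ≤ 2 ^ (160 * k) * (143/144) ^ (28800 * k) * 72 ^ (Fintype.card α) := by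
      intro q hq
      rw [Finset.mem_product, Finset.mem_Ico, Finset.mem_range] at hq
      exact one_tail (L q.1 q.2 \ W n) _ (160 * k) (28800 * k) (h.big q.1 hq.1.1 hq.1.2 q.2 hq.2)
    refine (h1.trans (Finset.sum_le_sum h2)).trans ?_
    rw [Finset.sum_const, Finset.card_product, Nat.card_Ico, Finset.card_range, nsmul_eq_mul]
    have e1 : (n + 1) * w - n * w = w := by rw [Nat.add_mul, Nat.one_mul, Nat.add_sub_cancel_left]
    rw [e1]
    have h3 := N2 k hk
    calc ((w * k : ℕ) : ℝ) * (2 ^ (160 * k) * (143/144) ^ (28800 * k) * 72 ^ (Fintype.card α))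
        = (((2 * bb k * k : ℕ) : ℝ) * k * (2 ^ (160 * k) * (143/144) ^ (28800 * k))) * 72 ^ (Fintype.card α) := by
          rw [hw]; push_cast; ring
      _ ≤ _ := by gcongr
  have c2 : (B2.card : ℝ) ≤ 1/8 * 72 ^ (Fintype.card α) := by
    have h1 : (B2.card : ℝ) ≤ ∑ q ∈ Finset.Ico ((n + 1) * w) ((n + 2) * w) ×ˢ Finset.range k,
        (((univ : Finset (Lab α)).filter
      (fun Y => ((L q.1 q.2).filter (fun γ => 36 ≤ (Y γ).val)).card < 28800 * k)).card : ℝ) := by
      exact_mod_cast Finset.card_biUnion_le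
    have h2 : ∀ q ∈ Finset.Ico ((n + 1) * w) ((n + 2) * w) ×ˢ Finset.range k,
        (((univ : Finset (Lab α)).filter
      (fun Y => ((L q.1 q.2).filter (fun γ => 36 ≤ (Y γ).val)).card < 28800 * k)).card : ℝ)
        ≤ 2 ^ (28800 * k) * (3/4) ^ (115200 * k) * 72 ^ (Fintype.card α) := by
      intro q hq
      rw [Finset.mem_product, Finset.mem_Ico, Finset.mem_range] at hq
      exact hi_tail (L q.1 q.2) (28800 * k) (115200 * k) (hL q.1 q.2 hq.2)
    refine (h1.trans (Finset.sum_le_sum h2)).trans ?_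
    rw [Finset.sum_const, Finset.card_product, Nat.card_Ico, Finset.card_range, nsmul_eq_mul]
    have e1 : (n + 2) * w - (n + 1) * w = w := by
      have : (n + 2) * w = (n + 1) * w + w := by ring
      omega
    rw [e1]
    have h3 := N3 k hk
    calc ((w * k : ℕ) : ℝ) * (2 ^ (28800 * k) * (3/4) ^ (115200 * k) * 72 ^ (Fintype.card α))
        = (((2 * bb k * k : ℕ) : ℝ) * k * (2 ^ (28800 * k) * (3/4) ^ (115200 * k))) * 72 ^ (Fintype.card α) := by
          rw [hw]; push_cast; ring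
      _ ≤ _ := by gcongr
  have c3 : (B3.card : ℝ) ≤ 44/100 * 72 ^ (Fintype.card α) := by
    have h1 := sum_newPsi k (bb k) n hk c W h.band (h.psi n le_rfl)
    have h0 : ∀ Y : Lab α, 0 ≤ newPsi k (bb k) n c W (pal (W n) Y) := by
      intro Y
      unfold newPsi
      apply Finset.sum_nonneg
      intro G _
      apply mul_nonneg _ (by positivity)
      split_ifs
      · have : 0 ≤ ∑ G' ∈ range (n / k + 1), (1/2:ℝ) ^ ds G G' * Phi k (BF k (bb k) c W) n G' :=
          Finset.sum_nonneg (fun G' _ => mul_nonneg (by positivity) (Phi_nonneg k _ n G'))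
        linarith
      · exact le_rfl
    have h2 : (B3.card : ℝ) * (1/4) ≤ ∑ Y : Lab α, newPsi k (bb k) n c W (pal (W n) Y) := by
      rw [← nsmul_eq_mul, ← Finset.sum_const]
      refine (Finset.sum_le_sum (g := fun Y => newPsi k (bb k) n c W (pal (W n) Y)) ?_).trans ?_
      · intro Y hY
        rw [hB3, Finset.mem_filter] at hY
        exact hY.2.le
      · exact Finset.sum_le_sum_of_subset_of_nonneg (Finset.subset_univ _) (fun Y _ _ => h0 Y)
    linarith
  have hex : ∃ Y : Lab α, Y ∉ B1 ∪ B2 ∪ B3 := by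
    by_contra hcon
    push Not at hcon
    have h1 : (univ : Finset (Lab α)) ⊆ B1 ∪ B2 ∪ B3 := fun Y _ => hcon Y
    have h2 := Finset.card_le_card h1
    have h3 : (B1 ∪ B2 ∪ B3).card ≤ B1.card + B2.card + B3.card :=
      (Finset.card_union_le _ _).trans (Nat.add_le_add_right (Finset.card_union_le _ _) _)
    have h4 : (univ : Finset (Lab α)).card = 72 ^ (Fintype.card α) := by
      rw [Finset.card_univ, Fintype.card_fun, Fintype.card_fin]
    have h5 : ((72 ^ (Fintype.card α) : ℕ) : ℝ) ≤ B1.card + B2.card + B3.card := by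
      rw [h4] at h2
      exact_mod_cast h2.trans h3
    push_cast at h5
    linarith
  obtain ⟨Y, hY⟩ := hex
  rw [Finset.mem_union, Finset.mem_union, not_or, not_or] at hY
  obtain ⟨⟨h1, h2⟩, h3⟩ := hY
  refine ⟨Y, ?_, ?_, ?_⟩
  · intro i hi1 hi2 a ha
    by_contra hcon
    apply h1
    rw [hB1, Finset.mem_biUnion]
    refine ⟨(i, a), ?_, ?_⟩
    · rw [Finset.mem_product, Finset.mem_Ico, Finset.mem_range]
      exact ⟨⟨hi1, hi2⟩, ha⟩
    · rw [Finset.mem_filter]
      refine ⟨Finset.mem_univ _, ?_⟩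
      have e : ((L i a \ W n).filter (fun γ => Y γ = ⟨T i, by have := T_lt i; omega⟩))
          = ((L i a \ W n).filter (fun γ => (Y γ).val = T i)) := by
        apply Finset.filter_congr
        intro γ _
        exact Fin.ext_iff
      simp only
      rw [e]
      omega
  · intro i hi1 hi2 a ha
    by_contra hcon
    apply h2
    rw [hB2, Finset.mem_biUnion]
    refine ⟨(i, a), ?_, ?_⟩
    · rw [Finset.mem_product, Finset.mem_Ico, Finset.mem_range]
      exact ⟨⟨hi1, hi2⟩, ha⟩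
    · rw [Finset.mem_filter]
      refine ⟨Finset.mem_univ _, ?_⟩
      simp only
      omega
  · by_contra hcon
    apply h3
    rw [hB3, Finset.mem_filter]
    exact ⟨Finset.mem_univ _, not_le.1 hcon⟩

end Pool.Agent.Helper74.Thue
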