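import Mathlib

/-!
Tail bounds for the number of colours of a list whose (uniformly random) label lies in a set.
-/

set_option autoImplicit false

namespace Pool.Agent.Helper74.Thue

open Finset

variable {α : Type} [Fintype α] [DecidableEq α]

/-- labellings of the colours -/
abbrev Lab (α : Type) := α → Fin 72

theorem sum_half_pow (L : Finset α) (B : Finset (Fin 72)) :
    ∑ Y : Lab α, (1/2:ℝ) ^ ((L.filter (fun γ => Y γ ∈ B)).card)
      = (1 - (B.card:ℝ)/144) ^ L.card * 72 ^ (Fintype.card α) := by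
  classical
  have h1 : ∀ Y : Lab α, (1/2:ℝ) ^ ((L.filter (fun γ => Y γ ∈ B)).card)
      = ∏ γ : α, (if γ ∈ L ∧ Y γ ∈ B then (1/2:ℝ) else 1) := by
    intro Y
    rw [Finset.prod_ite, Finset.prod_const, Finset.prod_const_one, mul_one]
    congr 2
    ext γ
    simp
  simp_rw [h1]
  have h2 := (Finset.prod_univ_sum (fun _ : α => (Finset.univ : Finset (Fin 72)))
    (fun γ z => (if γ ∈ L ∧ z ∈ B then (1/2:ℝ) else 1))).symm
  rw [Fintype.piFinset_univ] at h2
  rw [h2]
  have h3 : ∀ γ : α, ∑ z : Fin 72, (if γ ∈ L ∧ z ∈ B then (1/2:ℝ) else 1)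
      = (if γ ∈ L then (1 - (B.card:ℝ)/144) else 1) * 72 := by
    intro γ
    by_cases hγ : γ ∈ L
    · simp only [hγ, true_and, if_true]
      have : ∀ z : Fin 72, (if z ∈ B then (1/2:ℝ) else 1) = 1 - (if z ∈ B then (1/2:ℝ) else 0) := by
        intro z; split_ifs <;> norm_num
      simp_rw [this]
      rw [Finset.sum_sub_distrib, Finset.sum_ite_mem, Finset.univ_inter]
      simp
      ring
    · simp [hγ]
  simp_rw [h3]
  rw [Finset.prod_mul_distrib, Finset.prod_const, Finset.prod_ite_mem, Finset.univ_inter,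
    Finset.prod_const, Finset.card_univ]

theorem card_lt_le (L : Finset α) (B : Finset (Fin 72)) (t : ℕ) :
    (((univ : Finset (Lab α)).filter
      (fun Y => (L.filter (fun γ => Y γ ∈ B)).card < t)).card : ℝ)
      ≤ 2 ^ t * (1 - (B.card:ℝ)/144) ^ L.card * 72 ^ (Fintype.card α) := by
  classical
  have h := sum_half_pow L B
  have h1 : (((univ : Finset (Lab α)).filter
      (fun Y => (L.filter (fun γ => Y γ ∈ B)).card < t)).card : ℝ) * (1/2:ℝ)^t
      ≤ ∑ Y : Lab α, (1/2:ℝ) ^ ((L.filter (fun γ => Y γ ∈ B)).card) := by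
    rw [← nsmul_eq_mul, ← Finset.sum_const]
    refine (Finset.sum_le_sum (f := fun _ => (1/2:ℝ)^t)
      (g := fun Y : Lab α => (1/2:ℝ) ^ ((L.filter (fun γ => Y γ ∈ B)).card)) ?_).trans ?_
    · intro Y hY
      rw [Finset.mem_filter] at hY
      exact pow_le_pow_of_le_one (by norm_num) (by norm_num) hY.2.le
    · exact Finset.sum_le_sum_of_subset_of_nonneg (Finset.filter_subset _ _)
        (fun _ _ _ => by positivity)
  rw [h] at h1
  have h2 : (2:ℝ)^t * (1/2:ℝ)^t = 1 := by rw [← mul_pow]; norm_num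
  calc (((univ : Finset (Lab α)).filter
      (fun Y => (L.filter (fun γ => Y γ ∈ B)).card < t)).card : ℝ)
      = 2^t * ((((univ : Finset (Lab α)).filter
      (fun Y => (L.filter (fun γ => Y γ ∈ B)).card < t)).card : ℝ) * (1/2:ℝ)^t) := by
        rw [mul_comm (((univ : Finset (Lab α)).filter
      (fun Y => (L.filter (fun γ => Y γ ∈ B)).card < t)).card : ℝ), ← mul_assoc, h2, one_mul]
    _ ≤ 2^t * ((1 - (B.card:ℝ)/144) ^ L.card * 72 ^ (Fintype.card α)) :=
        mul_le_mul_of_nonneg_left h1 (by positivity)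
    _ = _ := by ring

/-- labels at least `36` -/
def Hi : Finset (Fin 72) := univ.filter (fun z => 36 ≤ z.val)

theorem card_Hi : Hi.card = 36 := by decide

/-- few colours get a label `≥ 36`: rare -/
theorem hi_tail (L : Finset α) (t N : ℕ) (hN : N ≤ L.card) :
    (((univ : Finset (Lab α)).filter
      (fun Y => (L.filter (fun γ => 36 ≤ (Y γ).val)).card < t)).card : ℝ)
      ≤ 2 ^ t * (3/4) ^ N * 72 ^ (Fintype.card α) := by
  have h := card_lt_le L Hi t
  have h1 : ∀ Y : Lab α, (L.filter (fun γ => 36 ≤ (Y γ).val)) = (L.filter (fun γ => Y γ ∈ Hi)) := by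
    intro Y
    apply Finset.filter_congr
    intro γ _
    simp [Hi]
  simp_rw [h1]
  refine h.trans ?_
  rw [card_Hi]
  have h2 : (1 - ((36:ℕ):ℝ)/144) = 3/4 := by norm_num
  rw [h2]
  have : (3/4:ℝ)^L.card ≤ (3/4)^N := pow_le_pow_of_le_one (by norm_num) (by norm_num) hN
  gcongr

/-- few colours get the label `z`: rare -/
theorem one_tail (L : Finset α) (z : Fin 72) (t N : ℕ) (hN : N ≤ L.card) :
    (((univ : Finset (Lab α)).filter
      (fun Y => (L.filter (fun γ => Y γ = z)).card < t)).card : ℝ)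
      ≤ 2 ^ t * (143/144) ^ N * 72 ^ (Fintype.card α) := by
  have h := card_lt_le L {z} t
  simp only [Finset.mem_singleton, Finset.card_singleton] at h
  refine h.trans ?_
  have h2 : (1 - ((1:ℕ):ℝ)/144) = 143/144 := by norm_num
  rw [h2]
  have : (143/144:ℝ)^L.card ≤ (143/144)^N := pow_le_pow_of_le_one (by norm_num) (by norm_num) hN
  gcongr

end Pool.Agent.Helper74.Thue
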