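import Pool.Agent.Helper74.Thue.Word
import Pool.Agent.Helper74.Thue.Potential

/-!
Analysis of repetitive paths: crossing a block of cliques.
-/

set_option autoImplicit false

namespace Pool.Agent.Helper74.Thue

open Finset

/-- discrete intermediate values -/
theorem ivt (f : ℕ → ℕ) (a b : ℕ) (hab : a ≤ b)
    (hstep : ∀ s, a ≤ s → s < b → f (s + 1) ≤ f s + 1 ∧ f s ≤ f (s + 1) + 1) (y : ℕ)
    (h : (f a ≤ y ∧ y ≤ f b) ∨ (f b ≤ y ∧ y ≤ f a)) : ∃ s, a ≤ s ∧ s ≤ b ∧ f s = y := by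
  induction b, hab using Nat.le_induction with
  | base => exact ⟨a, le_rfl, le_rfl, by omega⟩
  | succ b hab ih =>
    have ih' := ih (fun s h1 h2 => hstep s h1 (by omega))
    have h1 := hstep b hab (by omega)
    by_cases h2 : f (b + 1) = y
    · exact ⟨b + 1, by omega, le_rfl, h2⟩
    · have h6 : (f a ≤ y ∧ y ≤ f b) ∨ (f b ≤ y ∧ y ≤ f a) := by
        rcases h with h | h
        · left; omega
        · right; omega
      obtain ⟨s, h3, h4, h5⟩ := ih' h6
      exact ⟨s, h3, by omega, h5⟩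

/-- in `d` steps the value changes by at most `d` -/
theorem lip (f : ℕ → ℕ) (a b : ℕ) (hab : a ≤ b)
    (hstep : ∀ s, a ≤ s → s < b → f (s + 1) ≤ f s + 1 ∧ f s ≤ f (s + 1) + 1) :
    f b ≤ f a + (b - a) ∧ f a ≤ f b + (b - a) := by
  induction b, hab using Nat.le_induction with
  | base => omega
  | succ b hab ih =>
    have ih' := ih (fun s h1 h2 => hstep s h1 (by omega))
    have h1 := hstep b hab (by omega)
    omega

/-- a crossing of an interval of values -/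
theorem crossing (J : ℕ → ℕ) (sA sB : ℕ) (hAB : sA ≤ sB)
    (hstep : ∀ s, sA ≤ s → s < sB → J (s + 1) ≤ J s + 1 ∧ J s ≤ J (s + 1) + 1)
    (lo hi : ℕ) (hlo : J sA ≤ lo) (hhi : hi ≤ J sB) (hlh : lo < hi) :
    ∃ u e, sA ≤ u ∧ u ≤ e ∧ e ≤ sB ∧ J u = lo ∧ J e = hi ∧
      (∀ s, u ≤ s → s ≤ e → lo ≤ J s ∧ J s ≤ hi) ∧ (∀ s, sA ≤ s → s ≤ e → J s ≤ hi) := by
  classical
  have hex : ∃ s, sA ≤ s ∧ hi ≤ J s := ⟨sB, hAB, hhi⟩
  obtain ⟨h1, h2⟩ := Nat.find_spec hex
  have h3 : ∀ s, s < Nat.find hex → ¬ (sA ≤ s ∧ hi ≤ J s) := fun s hs => Nat.find_min hex hs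
  have h4 : Nat.find hex ≤ sB := Nat.find_min' hex ⟨hAB, hhi⟩
  generalize Nat.find hex = e at h1 h2 h3 h4
  have he : sA < e := by
    rcases Nat.lt_or_ge sA e with h | h
    · exact h
    · have : e = sA := by omega
      rw [this] at h2; omega
  have hJe : J e = hi := by
    have h5 := h3 (e - 1) (by omega)
    have h6 := hstep (e - 1) (by omega) (by omega)
    have h7 : e - 1 + 1 = e := by omega
    rw [h7] at h6
    have h8 : ¬ (hi ≤ J (e - 1)) := fun h => h5 ⟨by omega, h⟩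
    omega
  have hle : ∀ s, sA ≤ s → s ≤ e → J s ≤ hi := by
    intro s h5 h6
    rcases Nat.lt_or_ge s e with h | h
    · by_contra hcon
      exact h3 s h ⟨h5, by omega⟩
    · have : s = e := by omega
      rw [this, hJe]
  have hP : sA ≤ sA ∧ J sA ≤ lo := ⟨le_rfl, hlo⟩
  have hu := Nat.findGreatest_spec (P := fun s => sA ≤ s ∧ J s ≤ lo) (n := e) he.le hP
  have hu2 : ∀ s, Nat.findGreatest (fun s => sA ≤ s ∧ J s ≤ lo) e < s → s ≤ e → ¬ (sA ≤ s ∧ J s ≤ lo) :=
    fun s h5 h6 => Nat.findGreatest_is_greatest h5 h6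
  have hu3 : Nat.findGreatest (fun s => sA ≤ s ∧ J s ≤ lo) e ≤ e := Nat.findGreatest_le e
  generalize Nat.findGreatest (fun s => sA ≤ s ∧ J s ≤ lo) e = u at hu hu2 hu3
  have hue : u < e := by
    rcases Nat.lt_or_ge u e with h | h
    · exact h
    · have h5 : u = e := by omega
      rw [h5] at hu; omega
  have hgt : ∀ s, u < s → s ≤ e → lo < J s := by
    intro s h5 h6
    by_contra hcon
    exact hu2 s h5 h6 ⟨by omega, by omega⟩
  have hJu : J u = lo := by
    have h5 := hgt (u + 1) (by omega) (by omega)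
    have h6 := hstep u hu.1 (by omega)
    omega
  refine ⟨u, e, hu.1, hue.le, h4, hJu, hJe, ?_, hle⟩
  intro s h5 h6
  refine ⟨?_, hle s (by omega) h6⟩
  rcases Nat.lt_or_ge u s with h | h
  · exact (hgt s h h6).le
  · have : s = u := by omega
    rw [this, hJu]

theorem ds_div (H a b : ℕ) (hH : 0 < H) : H * ds (a / H) (b / H) ≤ ds a b + (H - 1) := by
  have h1 := Nat.mul_div_le a H
  have h2 := Nat.mul_div_le b H
  have h3 : a < H * (a / H) + H := by
    have := Nat.lt_mul_div_succ a hH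
    rwa [Nat.mul_add, Nat.mul_one] at this
  have h4 : b < H * (b / H) + H := by
    have := Nat.lt_mul_div_succ b hH
    rwa [Nat.mul_add, Nat.mul_one] at this
  unfold ds
  rw [Nat.mul_add, Nat.mul_sub, Nat.mul_sub]
  generalize H * (a / H) = p at *
  generalize H * (b / H) = q at *
  omega

variable {α : Type}

/-- every row of some band of the coarse cell `G` has a colour in the palette of block `m` -/
def BF (k b : ℕ) (c : ℕ → ℕ → α) (W : ℕ → Finset α) (m G : ℕ) : Prop :=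
  ∃ g, g / (2 * k ^ 2) = G ∧ (g + 1) * b ≤ m * (2 * b * k) ∧
    ∀ y, g * b ≤ y → y < (g + 1) * b → ∃ a, a < k ∧ c y a ∈ W (m + 1)

theorem BF_le (k b : ℕ) (hk : 0 < k) (hb : 0 < b) (c : ℕ → ℕ → α) (W : ℕ → Finset α) (m G : ℕ)
    (h : BF k b c W m G) : G ≤ m / k := by
  obtain ⟨g, h1, h2, _⟩ := h
  have h3 : g ≤ m * (2 * k) := by
    have : (g + 1) * b ≤ (m * (2 * k)) * b := by
      calc (g + 1) * b ≤ m * (2 * b * k) := h2
        _ = _ := by ring
    have := Nat.le_of_mul_le_mul_right this hb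
    omega
  rw [← h1]
  calc g / (2 * k ^ 2) ≤ (m * (2 * k)) / (2 * k ^ 2) := Nat.div_le_div_right h3
    _ = (m * (2 * k)) / (k * (2 * k)) := by congr 1; ring
    _ = m / k := Nat.mul_div_mul_right _ _ (by omega)

/-- the far regime -/
structure RB (k b : ℕ) (c : ℕ → ℕ → α) (W : ℕ → Finset α) (x y : ℕ → ℕ × ℕ) (t : ℕ) : Prop where
  x2 : ∀ s, s < t → (x s).2 < k
  y2 : ∀ s, s < t → (y s).2 < k
  xinj : ∀ s, s < t → ∀ s', s' < t → x s = x s' → s = s'
  yinj : ∀ s, s < t → ∀ s', s' < t → y s = y s' → s = s'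
  xstep : ∀ s, s + 1 < t → (x (s+1)).1 ≤ (x s).1 + 1 ∧ (x s).1 ≤ (x (s+1)).1 + 1
  ystep : ∀ s, s + 1 < t → (y (s+1)).1 ≤ (y s).1 + 1 ∧ (y s).1 ≤ (y (s+1)).1 + 1
  hit : ∀ s, s < t → c (x s).1 (x s).2 ∈ W ((y s).1 / (2 * b * k) + 1)
  sep : ∀ s, s < t → (x s).1 / (2 * b * k) + 2 ≤ (y s).1 / (2 * b * k)

theorem RB.rev {k b : ℕ} {c : ℕ → ℕ → α} {W : ℕ → Finset α} {x y : ℕ → ℕ × ℕ} {t : ℕ}
    (h : RB k b c W x y t) : RB k b c W (fun s => x (t - 1 - s)) (fun s => y (t - 1 - s)) t where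
  x2 := fun s hs => h.x2 _ (by omega)
  y2 := fun s hs => h.y2 _ (by omega)
  xinj := fun s hs s' hs' he => by
    have := h.xinj _ (by omega) _ (by omega) he
    omega
  yinj := fun s hs s' hs' he => by
    have := h.yinj _ (by omega) _ (by omega) he
    omega
  xstep := fun s hs => by
    have := h.xstep (t - 1 - (s + 1)) (by omega)
    have e : t - 1 - (s + 1) + 1 = t - 1 - s := by omega
    rw [e] at this
    exact ⟨this.2, this.1⟩
  ystep := fun s hs => by
    have := h.ystep (t - 1 - (s + 1)) (by omega)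
    have e : t - 1 - (s + 1) + 1 = t - 1 - s := by omega
    rw [e] at this
    exact ⟨this.2, this.1⟩
  hit := fun s hs => h.hit _ (by omega)
  sep := fun s hs => h.sep _ (by omega)

/-- number of times in an interval is at most `k` times the number of cliques visited -/
theorem count_le (k : ℕ) (x : ℕ → ℕ × ℕ) (u e lo hi : ℕ)
    (x2 : ∀ s, u ≤ s → s ≤ e → (x s).2 < k)
    (xinj : ∀ s, u ≤ s → s ≤ e → ∀ s', u ≤ s' → s' ≤ e → x s = x s' → s = s')
    (hlo : ∀ s, u ≤ s → s ≤ e → lo ≤ (x s).1 ∧ (x s).1 ≤ hi) :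
    e + 1 - u ≤ (hi + 1 - lo) * k := by
  classical
  have h := Finset.card_le_card_of_injOn (s := Finset.Icc u e) (t := Finset.Icc lo hi ×ˢ Finset.range k) x
    (by
      intro s hs
      rw [Finset.mem_coe, Finset.mem_Icc] at hs
      rw [Finset.mem_coe, Finset.mem_product, Finset.mem_Icc, Finset.mem_range]
      exact ⟨hlo s hs.1 hs.2, x2 s hs.1 hs.2⟩)
    (by
      intro s hs s' hs' he
      rw [Finset.mem_coe, Finset.mem_Icc] at hs hs'
      exact xinj s hs.1 hs.2 s' hs'.1 hs'.2 he)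
  rw [Finset.card_product, Nat.card_Icc, Nat.card_Icc, Finset.card_range] at h
  exact h

/-- crossing a block forces a barrier-free band -/
theorem RB.band {k b : ℕ} (hk : 0 < k) (hb : 0 < b) {c : ℕ → ℕ → α} {W : ℕ → Finset α}
    {x y : ℕ → ℕ × ℕ} {t : ℕ}
    (h : RB k b c W x y t) (m u e : ℕ) (hue : u ≤ e) (het : e < t)
    (hJu : (y u).1 = m * (2 * b * k)) (hJe : (y e).1 + 1 = (m + 1) * (2 * b * k))
    (hJ : ∀ s, u ≤ s → s ≤ e → m * (2 * b * k) ≤ (y s).1 ∧ (y s).1 + 1 ≤ (m + 1) * (2 * b * k)) :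
    ∃ σ, u ≤ σ ∧ σ ≤ e ∧ BF k b c W m ((x σ).1 / (k * (2 * b * k))) := by
  classical
  have hne : (Finset.Icc u e).Nonempty := ⟨u, Finset.mem_Icc.2 ⟨le_rfl, hue⟩⟩
  obtain ⟨smin, hsmin, hmin⟩ := Finset.exists_min_image (Finset.Icc u e) (fun s => (x s).1) hne
  obtain ⟨smax, hsmax, hmax⟩ := Finset.exists_max_image (Finset.Icc u e) (fun s => (x s).1) hne
  rw [Finset.mem_Icc] at hsmin hsmax
  have hmin' : ∀ s, u ≤ s → s ≤ e → (x smin).1 ≤ (x s).1 := fun s h1 h2 => hmin s (Finset.mem_Icc.2 ⟨h1, h2⟩)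
  have hmax' : ∀ s, u ≤ s → s ≤ e → (x s).1 ≤ (x smax).1 := fun s h1 h2 => hmax s (Finset.mem_Icc.2 ⟨h1, h2⟩)
  have hcount := count_le k x u e (x smin).1 (x smax).1
    (fun s _ h2 => h.x2 s (by omega)) (fun s _ h2 s' _ h4 => h.xinj s (by omega) s' (by omega))
    (fun s h1 h2 => ⟨hmin' s h1 h2, hmax' s h1 h2⟩)
  have hlip := lip (fun s => (y s).1) u e hue (fun s h1 h2 => h.ystep s (by omega))
  have hw : 2 * b * k ≤ e + 1 - u := by
    have e1 : (m + 1) * (2 * b * k) = m * (2 * b * k) + 2 * b * k := by ring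
    have := hlip.1
    omega
  have hrows : 2 * b ≤ (x smax).1 + 1 - (x smin).1 := by
    have : (2 * b) * k ≤ ((x smax).1 + 1 - (x smin).1) * k := hw.trans hcount
    exact Nat.le_of_mul_le_mul_right this hk
  -- visited rows
  have hvis : ∀ r, (x smin).1 ≤ r → r ≤ (x smax).1 → ∃ s, u ≤ s ∧ s ≤ e ∧ (x s).1 = r := by
    intro r h1 h2
    rcases Nat.le_total smin smax with h3 | h3
    · obtain ⟨s, h4, h5, h6⟩ := ivt (fun s => (x s).1) smin smax h3
        (fun s h4 h5 => h.xstep s (by omega)) r (Or.inl ⟨h1, h2⟩)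
      exact ⟨s, by omega, by omega, h6⟩
    · obtain ⟨s, h4, h5, h6⟩ := ivt (fun s => (x s).1) smax smin h3
        (fun s h4 h5 => h.xstep s (by omega)) r (Or.inr ⟨h1, h2⟩)
      exact ⟨s, by omega, by omega, h6⟩
  have hdivm : ∀ s, u ≤ s → s ≤ e → (y s).1 / (2 * b * k) = m := by
    intro s h1 h2
    have h3 := hJ s h1 h2
    have hw0 : 0 < 2 * b * k := by positivity
    rw [Nat.div_eq_iff hw0]
    constructor
    · have := h3.1; omega
    · have := h3.2
      have e1 : (m + 1) * (2 * b * k) = m * (2 * b * k) + 2 * b * k := by ring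
      omega
  have hhit : ∀ r, (x smin).1 ≤ r → r ≤ (x smax).1 → ∃ a, a < k ∧ c r a ∈ W (m + 1) := by
    intro r h1 h2
    obtain ⟨s, h3, h4, h5⟩ := hvis r h1 h2
    refine ⟨(x s).2, h.x2 s (by omega), ?_⟩
    have := h.hit s (by omega)
    rw [hdivm s h3 h4, h5] at this
    exact this
  -- the band
  obtain ⟨g, hg1, hg2⟩ : ∃ g, (x smin).1 ≤ g * b ∧ g * b + 1 ≤ (x smin).1 + b := by
    refine ⟨((x smin).1 + (b - 1)) / b, ?_, ?_⟩
    · have := Nat.lt_div_mul_add (a := (x smin).1 + (b - 1)) hb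
      omega
    · have := Nat.div_mul_le_self ((x smin).1 + (b - 1)) b
      omega
  have hg3 : (g + 1) * b = g * b + b := by ring
  obtain ⟨σ, hσ1, hσ2, hσ3⟩ := hvis (g * b) hg1 (by omega)
  refine ⟨σ, hσ1, hσ2, g, ?_, ?_, ?_⟩
  · rw [hσ3]
    have e1 : k * (2 * b * k) = (2 * k ^ 2) * b := by ring
    rw [e1, Nat.mul_div_mul_right _ _ hb]
  · -- the top row of the band is in an earlier block
    obtain ⟨s, h1, h2, h3⟩ := hvis (g * b + b - 1) (by omega) (by omega)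
    have h4 := h.sep s (by omega)
    rw [hdivm s h1 h2] at h4
    have hw0 : 0 < 2 * b * k := by positivity
    have h5 : (x s).1 < m * (2 * b * k) := by
      rw [← Nat.div_lt_iff_lt_mul hw0]
      omega
    omega
  · intro r h1 h2
    exact hhit r (by omega) (by omega)

/-- the far regime gives a chain of bad cells -/
theorem RB.chain {k b : ℕ} (hk : 0 < k) (hb : 0 < b) {c : ℕ → ℕ → α} {W : ℕ → Finset α}
    {x y : ℕ → ℕ × ℕ} {t : ℕ} (h : RB k b c W x y t) (sA sB : ℕ) (hAB : sA ≤ sB) (hBt : sB < t)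
    (hmin : ∀ s, s < t → (y sA).1 ≤ (y s).1) (hmax : ∀ s, s < t → (y s).1 ≤ (y sB).1)
    (q : ℕ) (hq1 : (y sA).1 ≤ q * (2 * b * k)) (hq2 : (q + 1) * (2 * b * k) ≤ (y sB).1 + 1)
    (hL : ∀ s, s < t → (y sA).1 ≤ (x s).1 + t) :
    ∃ (p d : ℕ) (G : ℕ → ℕ), (∀ m, p ≤ m → m ≤ p + d → BF k b c W m (G m)) ∧
      (∑ m ∈ Ico p (p + d), ds (G (m+1)) (G m) ≤ 2 * (d + 1)) ∧
      ((p + d) / k ≤ G (p + d) + 2 * (d + 1) + 2) ∧ (p + d + 1) * (2 * b * k) ≤ (y sB).1 + 1 := by
  classical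
  have hw0 : 0 < 2 * b * k := by positivity
  have hw2 : 2 ≤ 2 * b * k := by
    have : 1 ≤ b * k := Nat.mul_pos hb hk
    calc 2 = 2 * 1 := by ring
      _ ≤ 2 * (b * k) := Nat.mul_le_mul_left _ this
      _ = _ := by ring
  generalize hw : 2 * b * k = w at *
  -- the first and the last full blocks
  obtain ⟨p, hp1, hp2⟩ : ∃ p, (y sA).1 ≤ p * w ∧ p * w + 1 ≤ (y sA).1 + w := by
    refine ⟨((y sA).1 + (w - 1)) / w, ?_, ?_⟩
    · have := Nat.lt_div_mul_add (a := (y sA).1 + (w - 1)) hw0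
      omega
    · have := Nat.div_mul_le_self ((y sA).1 + (w - 1)) w
      omega
  obtain ⟨r1, hr1, hr2⟩ : ∃ r1, r1 * w ≤ (y sB).1 + 1 ∧ (y sB).1 + 1 < r1 * w + w := by
    refine ⟨((y sB).1 + 1) / w, Nat.div_mul_le_self _ _, Nat.lt_div_mul_add hw0⟩
  have hpq : p ≤ q := by
    by_contra hcon
    have : (q + 1) * w ≤ p * w := Nat.mul_le_mul_right _ (by omega)
    have e : (q + 1) * w = q * w + w := by ring
    omega
  have hqr : q + 1 ≤ r1 := by
    by_contra hcon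
    have : (r1 + 1) * w ≤ (q + 1) * w := Nat.mul_le_mul_right _ (by omega)
    have e : (r1 + 1) * w = r1 * w + w := by ring
    omega
  obtain ⟨d, hd⟩ : ∃ d, r1 = p + d + 1 := ⟨r1 - p - 1, by omega⟩
  subst hd
  have hcross : ∀ m, p ≤ m → m ≤ p + d → ∃ u e σ, sA ≤ u ∧ u ≤ σ ∧ σ ≤ e ∧ e ≤ sB ∧
      (y u).1 = m * w ∧ (∀ s, sA ≤ s → s ≤ e → (y s).1 + 1 ≤ (m + 1) * w) ∧
      BF k b c W m ((x σ).1 / (k * w)) := by
    intro m hm1 hm2
    have e1 : (m + 1) * w = m * w + w := by ring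
    have h1 : p * w ≤ m * w := Nat.mul_le_mul_right _ hm1
    have h2 : (m + 1) * w ≤ (p + d + 1) * w := Nat.mul_le_mul_right _ (by omega)
    obtain ⟨u, e, hu1, hu2, hu3, hu4, hu5, hu6, hu7⟩ := crossing (fun s => (y s).1) sA sB hAB
      (fun s _ h4 => h.ystep s (by omega)) (m * w) ((m + 1) * w - 1) (by omega) (by omega)
      (by omega)
    obtain ⟨σ, hσ1, hσ2, hσ3⟩ := RB.band hk hb h m u e hu2 (by omega) (by rw [hw]; exact hu4)
      (by rw [hw]; omega) (by
        intro s h3 h4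
        rw [hw]
        have := hu6 s h3 h4
        omega)
    rw [hw] at hσ3
    refine ⟨u, e, σ, hu1, hσ1, hσ2, hu3, hu4, ?_, hσ3⟩
    intro s h3 h4
    have := hu7 s h3 h4
    omega
  have hcross' : ∀ m, ∃ u e σ, p ≤ m → m ≤ p + d → (sA ≤ u ∧ u ≤ σ ∧ σ ≤ e ∧ e ≤ sB ∧
      (y u).1 = m * w ∧ (∀ s, sA ≤ s → s ≤ e → (y s).1 + 1 ≤ (m + 1) * w) ∧
      BF k b c W m ((x σ).1 / (k * w))) := by
    intro m
    by_cases hm : p ≤ m ∧ m ≤ p + d
    · obtain ⟨u, e, σ, h1⟩ := hcross m hm.1 hm.2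
      exact ⟨u, e, σ, fun _ _ => h1⟩
    · exact ⟨0, 0, 0, fun h1 h2 => absurd ⟨h1, h2⟩ hm⟩
  choose U E S hUES using hcross'
  have hH0 : 0 < k * w := Nat.mul_pos hk hw0
  have hord : ∀ m, p ≤ m → m + 1 ≤ p + d → S m < S (m + 1) := by
    intro m h1 h2
    obtain ⟨a1, a2, a3, a4, a5, a6, a7⟩ := hUES m h1 (by omega)
    obtain ⟨b1, b2, b3, b4, b5, b6, b7⟩ := hUES (m + 1) (by omega) h2
    have : E m < U (m + 1) := by
      by_contra hcon
      have := a6 (U (m + 1)) b1 (by omega)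
      omega
    omega
  -- total variation
  have htv : ∀ j, j ≤ d → (k * w) * (∑ m ∈ Ico p (p + j), ds ((x (S (m+1))).1 / (k * w)) ((x (S m)).1 / (k * w)))
      + S p ≤ S (p + j) + j * (k * w - 1) := by
    intro j
    induction j with
    | zero => intro _; simp
    | succ j ih =>
      intro hj
      have ih' := ih (by omega)
      have e : p + (j + 1) = p + j + 1 := by ring
      rw [e, Finset.sum_Ico_succ_top (by omega), Nat.mul_add]
      have h1 := ds_div (k * w) (x (S (p + j + 1))).1 (x (S (p + j))).1 hH0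
      have h2 := hord (p + j) (by omega) (by omega)
      obtain ⟨_, _, b3, b4, _⟩ := hUES (p + j + 1) (by omega) (by omega)
      have h3 := lip (fun s => (x s).1) (S (p + j)) (S (p + j + 1)) h2.le
        (fun s _ h4 => h.xstep s (by omega))
      have h4 : ds (x (S (p + j + 1))).1 (x (S (p + j))).1 ≤ S (p + j + 1) - S (p + j) := by
        unfold ds; omega
      have e2 : (j + 1) * (k * w - 1) = j * (k * w - 1) + (k * w - 1) := by ring
      omega
  -- length of the walk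
  have ht : t ≤ ((y sB).1 + 1 - (y sA).1) * k := by
    have := count_le k y 0 (t - 1) (y sA).1 (y sB).1 (fun s _ h2 => h.y2 s (by omega))
      (fun s _ h2 s' _ h4 => h.yinj s (by omega) s' (by omega))
      (fun s _ h2 => ⟨hmin s (by omega), hmax s (by omega)⟩)
    omega
  have hlen : (y sB).1 + 1 - (y sA).1 + 1 ≤ (d + 3) * w := by
    have e1 : (p + d + 1) * w = p * w + d * w + w := by ring
    have e2 : (d + 3) * w = d * w + 3 * w := by ring
    omega
  have ht2 : t + k ≤ (d + 3) * (k * w) := by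
    have h1 : ((y sB).1 + 1 - (y sA).1 + 1) * k ≤ ((d + 3) * w) * k := Nat.mul_le_mul_right _ hlen
    have e1 : ((y sB).1 + 1 - (y sA).1 + 1) * k = ((y sB).1 + 1 - (y sA).1) * k + k := by ring
    have e2 : ((d + 3) * w) * k = (d + 3) * (k * w) := by ring
    omega
  refine ⟨p, d, fun m => (x (S m)).1 / (k * w), ?_, ?_, ?_, hr1⟩
  · intro m h1 h2
    exact (hUES m h1 h2).2.2.2.2.2.2
  · have h1 := htv d le_rfl
    obtain ⟨_, _, b3, b4, _⟩ := hUES (p + d) (by omega) le_rfl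
    have h2 : (k * w) * (∑ m ∈ Ico p (p + d), ds ((x (S (m+1))).1 / (k * w)) ((x (S m)).1 / (k * w)))
        < (k * w) * (2 * (d + 1) + 1) := by
      have e1 : (k * w) * (2 * (d + 1) + 1) = (d + 3) * (k * w) + d * (k * w) := by ring
      have e2 : d * (k * w - 1) ≤ d * (k * w) := Nat.mul_le_mul_left _ (by omega)
      omega
    have h3 := Nat.lt_of_mul_lt_mul_left h2
    simp only
    omega
  · obtain ⟨_, _, b3, b4, _⟩ := hUES (p + d) (by omega) le_rfl
    have h1 := hL (S (p + d)) (by omega)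
    -- (p + d) * w ≤ x + (2 (d+1) + 2) * (k w)
    have h2 : (p + d) * w ≤ (x (S (p + d))).1 + (2 * (d + 1) + 2) * (k * w) := by
      have e1 : (p + d) * w = p * w + d * w := by ring
      have e2 : (2 * (d + 1) + 2) * (k * w) = (d + 3) * (k * w) + d * (k * w) + k * w := by ring
      have h3 : w ≤ k * w := Nat.le_mul_of_pos_left _ hk
      have h4 : d * w ≤ d * (k * w) := Nat.mul_le_mul_left _ h3
      omega
    have h3 : ((p + d) * w) / (k * w) ≤ ((x (S (p + d))).1 + (2 * (d + 1) + 2) * (k * w)) / (k * w) :=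
      Nat.div_le_div_right h2
    rw [Nat.mul_div_mul_right _ _ hw0, Nat.add_mul_div_right _ _ hH0] at h3
    simp only
    omega

end Pool.Agent.Helper74.Thue
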