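import Mathlib

/-!
An explicit word over 36 letters without squares, whose letters at places of different
residues modulo 9 are different.
-/

set_option autoImplicit false

namespace Pool.Agent.Helper74.Thue

/-- odd part of a natural number (`0` for `0`) -/
def odp (n : ℕ) : ℕ :=
  if h : n = 0 then 0 else if n % 2 = 0 then odp (n / 2) else n
termination_by n
decreasing_by omega

theorem odp_even (n : ℕ) : odp (2 * n) = odp n := by
  rcases Nat.eq_zero_or_pos n with h | h
  · subst h; rfl
  · conv_lhs => rw [odp]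
    have h1 : ¬ (2 * n = 0) := by omega
    have h2 : (2 * n) % 2 = 0 := by omega
    have h3 : 2 * n / 2 = n := by omega
    simp only [h1, h2, h3, if_true, dite_false]

theorem odp_odd (n : ℕ) (h : n % 2 = 1) : odp n = n := by
  rw [odp]
  have h1 : ¬ (n = 0) := by omega
  have h2 : ¬ (n % 2 = 0) := by omega
  simp only [h1, h2, if_false, dite_false]

theorem odp_pow (a l : ℕ) : odp (2 ^ a * l) = odp l := by
  induction a with
  | zero => simp
  | succ a ih => rw [pow_succ, mul_comm (2 ^ a) 2, mul_assoc, odp_even, ih]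

/-- the word -/
def T (i : ℕ) : ℕ := 4 * (i % 9) + odp (i + 1) % 4

theorem T_lt (i : ℕ) : T i < 36 := by unfold T; omega

theorem T_mod {i j : ℕ} (h : T i = T j) : i % 9 = j % 9 := by unfold T at h; omega

theorem T_odp {i j : ℕ} (h : T i = T j) : odp (i + 1) % 4 = odp (j + 1) % 4 := by
  unfold T at h; omega

theorem no_square (i D : ℕ) (hD : 0 < D) (h : ∀ x, i ≤ x → x < i + D → T x = T (x + D)) : False := by
  obtain ⟨a, P, hP, hDe⟩ := Nat.exists_eq_two_pow_mul_odd (n := D) (by omega)
  have h9 : 9 ∣ D := by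
    have := T_mod (h i le_rfl (by omega))
    omega
  have h9P : 9 ∣ P := by
    rw [hDe] at h9
    exact (Nat.Coprime.dvd_of_dvd_mul_left (Nat.Coprime.pow_right a (by norm_num)) h9)
  have hP0 : P % 2 = 1 := Nat.odd_iff.1 hP
  have hP9 : 9 ≤ P := Nat.le_of_dvd (by omega) h9P
  have hq : 0 < 2 ^ a := by positivity
  generalize hqdef : 2 ^ a = q at hq hDe
  obtain ⟨l0, hl0a, hl0b⟩ : ∃ l0, i + 1 ≤ q * l0 ∧ q * l0 ≤ i + q := by
    refine ⟨(i + q) / q, ?_, Nat.mul_div_le _ _⟩
    have := Nat.lt_mul_div_succ (i + q) hq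
    have h2 : q * ((i + q) / q + 1) = q * ((i+q)/q) + q := by ring
    omega
  have key : ∀ l, l0 ≤ l → l < l0 + P → odp l % 4 = odp (l + P) % 4 := by
    intro l h1 h2
    have e1 : q * l0 ≤ q * l := Nat.mul_le_mul_left _ h1
    have e2 : q * l + q ≤ q * l0 + D := by
      rw [hDe]
      have : l + 1 ≤ l0 + P := h2
      calc q * l + q = q * (l + 1) := by ring
        _ ≤ q * (l0 + P) := Nat.mul_le_mul_left _ this
        _ = _ := by ring
    have h3 := T_odp (h (q * l - 1) (by omega) (by omega))
    have e3 : q * l - 1 + 1 = q * l := by omega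
    have e4 : q * l - 1 + D + 1 = q * (l + P) := by rw [hDe, mul_add]; omega
    rw [e3, e4, ← hqdef, odp_pow, odp_pow] at h3
    exact h3
  -- first even `l`
  obtain ⟨n, hn1, hn2⟩ : ∃ n, l0 ≤ 2 * n ∧ 2 * n ≤ l0 + 1 := ⟨(l0 + 1) / 2, by omega, by omega⟩
  have hn0 : 0 < n := by
    have : 0 < l0 := by
      rcases Nat.eq_zero_or_pos l0 with h0 | h0
      · rw [h0] at hl0a; omega
      · exact h0
    omega
  have k0 := key (2 * n) (by omega) (by omega)
  have k1 := key (2 * (n + 1)) (by omega) (by omega)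
  have k2 := key (2 * (n + 2)) (by omega) (by omega)
  have k3 := key (2 * (n + 3)) (by omega) (by omega)
  rw [odp_even, odp_odd (2 * n + P) (by omega)] at k0
  rw [odp_even, odp_odd (2 * (n + 1) + P) (by omega)] at k1
  rw [odp_even, odp_odd (2 * (n + 2) + P) (by omega)] at k2
  rw [odp_even, odp_odd (2 * (n + 3) + P) (by omega)] at k3
  rcases Nat.mod_two_eq_zero_or_one n with hh | hh
  · rw [odp_odd (n + 1) (by omega)] at k1
    rw [odp_odd (n + 3) (by omega)] at k3
    omega
  · rw [odp_odd n hh] at k0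
    rw [odp_odd (n + 2) (by omega)] at k2
    omega

end Pool.Agent.Helper74.Thue
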